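import Pool.Agent.Helper60.MA.Hull

/-!
# Flags
-/

namespace Pool.Agent.Helper60.MA

variable {Ω : Type}

/-- the entry `x` has a flag at `k` -/
def Flag (x : Ent Ω) (k : ℕ) : Prop := ∃ i, x.word[k]? = some (i, true)

end Pool.Agent.Helper60.MA
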