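import Pool.Agent.Helper67.MA.SEQ
import Pool.Agent.Helper67.MA.LB
import Pool.Agent.Helper88.MA.EXT

/-!
# Strong reductions to a hull
-/

set_option linter.unusedSectionVars false
set_option linter.unusedVariables false

namespace Pool.Agent.Helper60.MA

variable {Ω L : Type} [LinearOrder Ω] [LinearOrder L] [WellFoundedLT Ω] {S : Sys Ω L}

theorem join_spec {p t : Cd Ω} (hp : S.Cond p) (ht : S.Cond t) (hd : ∀ d, p d = 0 ∨ t d = 0) :
    S.Cond (join p t) ∧ S.Le (join p t) p ∧ S.Le (join p t) t := by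
  have h1 : ∀ s ∈ ({p, t, 0} : Set (Cd Ω)), S.Le (join p t) s := by
    refine Sys.le_of_step fun e h s hs => ?_
    have hlp : S.LeB e (join p t) p := h p (by simp)
    have hlt : S.LeB e (join p t) t := h t (by simp)
    rcases hd e with h0 | h0
    · rw [join_left h0]
      have h2 : S.Loc e (join p t) (S.LeB e (join p t)) (t e) 0 :=
        (ht.1 e).mono (fun c hc => hlt.trans hc) hlt.word
      rcases hs with rfl | rfl | rfl
      · rw [h0]; exact h2
      · exact Sys.Loc.refl _ _ _ _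
      · exact h2
    · rw [join_right h0]
      have h2 : S.Loc e (join p t) (S.LeB e (join p t)) (p e) 0 :=
        (hp.1 e).mono (fun c hc => hlp.trans hc) hlp.word
      rcases hs with rfl | rfl | rfl
      · exact Sys.Loc.refl _ _ _ _
      · rw [h0]; exact h2
      · exact h2
  refine ⟨⟨h1 0 (by simp), fun e he => ?_⟩, h1 p (by simp), h1 t (by simp)⟩
  rcases hd e with h0 | h0
  · rw [join_left h0] at he ⊢
    exact ht.2 e he
  · rw [join_right h0] at he ⊢
    exact hp.2 e he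

/-- the amalgamation -/
theorem amal {p t : Cd Ω} (hp : S.Cond p) (ht : S.Cond t) {e : Ω} {q : Cd Ω} {x : Ent Ω}
    (hq : S.CondB e q) (hqp : S.LeB e q p) (hqt : S.LeB e q t) (hx : S.EntOk e x)
    (hl : S.Loc e q (S.LeB e q) x (p e)) (hl' : S.Loc e q (S.LeB e q) x (t e))
    (hd : ∀ d, e < d → p d = 0 ∨ t d = 0) :
    S.Cond (Sys.mix e q x (join p t)) ∧ S.Le (Sys.mix e q x (join p t)) p ∧
      S.Le (Sys.mix e q x (join p t)) t := by
  set g := Sys.mix e q x (join p t) with hg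
  have hcg : ∀ d < e, q d = g d := fun d hd => (Sys.mix_lt hd q x _).symm
  have h1 : ∀ s ∈ ({p, t, 0} : Set (Cd Ω)), S.Le g s := by
    refine Sys.le_of_step fun d h s hs => ?_
    have hlp : S.LeB d g p := h p (by simp)
    have hlt : S.LeB d g t := h t (by simp)
    rcases lt_trichotomy d e with hde | rfl | hde
    · rw [hg, Sys.mix_lt hde, ← hg]
      have hcg' : ∀ d' < d, q d' = g d' := fun d' h => hcg d' (h.trans hde)
      rcases hs with rfl | rfl | rfl
      · exact Sys.Loc_congr hcg' (Sys.LeB_iff.1 hqp d hde)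
      · exact Sys.Loc_congr hcg' (Sys.LeB_iff.1 hqt d hde)
      · exact Sys.Loc_congr hcg' (hq.cond.1 d)
    · have h2 := Sys.Loc_congr hcg hl
      have h3 := Sys.Loc_congr hcg hl'
      rw [hg, Sys.mix_self, ← hg]
      rcases hs with rfl | rfl | rfl
      · exact h2
      · exact h3
      · exact Sys.Loc.trans (q := p) (D := S.LeB d p) (fun c hc => hlp.trans hc) hlp.word h2
          (hp.1 d)
    · rw [hg, Sys.mix_gt hde, ← hg]
      rcases hd d hde with h0 | h0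
      · rw [join_left h0]
        have h2 : S.Loc d g (S.LeB d g) (t d) 0 :=
          (ht.1 d).mono (fun c hc => hlt.trans hc) hlt.word
        rcases hs with rfl | rfl | rfl
        · rw [h0]; exact h2
        · exact Sys.Loc.refl _ _ _ _
        · exact h2
      · rw [join_right h0]
        have h2 : S.Loc d g (S.LeB d g) (p d) 0 :=
          (hp.1 d).mono (fun c hc => hlp.trans hc) hlp.word
        rcases hs with rfl | rfl | rfl
        · exact Sys.Loc.refl _ _ _ _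
        · rw [h0]; exact h2
        · exact h2
  refine ⟨⟨h1 0 (by simp), fun d hd0 => ?_⟩, h1 p (by simp), h1 t (by simp)⟩
  rcases lt_trichotomy d e with hde | rfl | hde
  · rw [hg, Sys.mix_lt hde] at hd0 ⊢
    exact hq.cond.2 d hd0
  · rw [hg, Sys.mix_self]
    exact hx
  · rw [hg, Sys.mix_gt hde] at hd0 ⊢
    rcases hd d hde with h0 | h0
    · rw [join_left h0] at hd0 ⊢
      exact ht.2 d hd0
    · rw [join_right h0] at hd0 ⊢
      exact hp.2 d hd0

variable {H : Hull Ω}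

/-- the statement of the reduction lemma for the conditions below `e` -/
def RedAt (S : Sys Ω L) (H : Hull Ω) (e : Ω) : Prop :=
  ∀ p : Cd Ω, S.CondB e p → ∀ a : Finset Ω, (∀ c ∈ a, c < e ∧ S.Val c ∧ c ∉ H.co) →
    ∃ ρ, S.CondB e ρ ∧ S.InH H ρ ∧ ∀ t, S.CondB e t → S.InH H t → S.Le t ρ → ∀ w,
      ∃ q, S.CondB e q ∧ S.Le q p ∧ S.Le q t ∧ ∀ c ∈ a, w ≤ (q c).word.length ∧
        ∀ k < w, Flag (q c) k → Flag (p c) k

/-- the last step of the construction -/
theorem red_finish {e e₁ : Ω} {p t q' : Cd Ω} {x : Ent Ω} (hp : S.CondB e p) (ht : S.CondB e t)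
    (htH : S.InH H t) (he : e₁ < e) (hmax : ∀ d, e₁ < d → p d ≠ 0 → d ∉ H.co)
    (heH : e₁ ∈ H.co) (hq : S.CondB e₁ q') (hqp : S.LeB e₁ q' p) (hqt : S.LeB e₁ q' t)
    (hx : S.EntOk e₁ x) (hl : S.Loc e₁ q' (S.LeB e₁ q') x (p e₁))
    (hl' : S.Loc e₁ q' (S.LeB e₁ q') x (t e₁)) (a : Finset Ω)
    (ha : ∀ c ∈ a, c < e ∧ S.Val c ∧ c ∉ H.co) (w : ℕ)
    (hfl : ∀ c ∈ a, c < e₁ → ∀ k < w, Flag (q' c) k → Flag (p c) k) :
    ∃ q, S.CondB e q ∧ S.Le q p ∧ S.Le q t ∧ ∀ c ∈ a, w ≤ (q c).word.length ∧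
      ∀ k < w, Flag (q c) k → Flag (p c) k := by
  have hd : ∀ d, e₁ < d → p d = 0 ∨ t d = 0 := by
    intro d hd
    by_cases h0 : p d = 0
    · exact Or.inl h0
    · exact Or.inr (htH.zero (hmax d hd h0))
  obtain ⟨h1, h2, h3⟩ := amal hp.cond ht.cond hq hqp hqt hx hl hl' hd
  set g := Sys.mix e₁ q' x (join p t) with hg
  have hgB : S.CondB e g := by
    refine Sys.CondB_iff'.2 ⟨h1, fun d hd0 => ?_⟩
    rcases lt_trichotomy d e₁ with hde | rfl | hde
    · exact hde.trans he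
    · exact he
    · rw [hg, Sys.mix_gt hde] at hd0
      rcases hd d hde with h0 | h0
      · rw [join_left h0] at hd0
        exact ht.lt hd0
      · rw [join_right h0] at hd0
        exact hp.lt hd0
  obtain ⟨q, hq1, hq2, hq3, -⟩ := Sys.extend_many hgB a (fun c hc => ⟨(ha c hc).1, (ha c hc).2.1⟩) w
  refine ⟨q, hq1, hq2.trans h2, hq2.trans h3, fun c hc => ⟨(hq3 c hc).1, fun k hk hf => ?_⟩⟩
  have h4 := (hq3 c hc).2 k hk hf
  rcases lt_trichotomy c e₁ with hce | rfl | hce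
  · rw [hg, Sys.mix_lt hce] at h4
    exact hfl c hc hce k hk h4
  · exact absurd heH (ha c hc).2.2
  · rw [hg, Sys.mix_gt hce, join_right (htH.zero (ha c hc).2.2)] at h4
    exact h4

/-- the case of a condition that does not meet the hull -/
theorem red_zero {e : Ω} {p : Cd Ω} (hp : S.CondB e p) (h0 : ∀ d ∈ H.co, p d = 0)
    (a : Finset Ω) (ha : ∀ c ∈ a, c < e ∧ S.Val c ∧ c ∉ H.co) :
    ∃ ρ, S.CondB e ρ ∧ S.InH H ρ ∧ ∀ t, S.CondB e t → S.InH H t → S.Le t ρ → ∀ w,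
      ∃ q, S.CondB e q ∧ S.Le q p ∧ S.Le q t ∧ ∀ c ∈ a, w ≤ (q c).word.length ∧
        ∀ k < w, Flag (q c) k → Flag (p c) k := by
  refine ⟨0, Sys.condB_zero e, Sys.inH_zero, fun t ht htH _ w => ?_⟩
  have hd : ∀ d, p d = 0 ∨ t d = 0 := by
    intro d
    by_cases hdH : d ∈ H.co
    · exact Or.inl (h0 d hdH)
    · exact Or.inr (htH.zero hdH)
  obtain ⟨h1, h2, h3⟩ := join_spec hp.cond ht.cond hd
  have hgB : S.CondB e (join p t) := by
    refine Sys.CondB_iff'.2 ⟨h1, fun d hd0 => ?_⟩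
    rcases hd d with h0 | h0
    · rw [join_left h0] at hd0
      exact ht.lt hd0
    · rw [join_right h0] at hd0
      exact hp.lt hd0
  obtain ⟨q, hq1, hq2, hq3, -⟩ := Sys.extend_many hgB a (fun c hc => ⟨(ha c hc).1, (ha c hc).2.1⟩) w
  refine ⟨q, hq1, hq2.trans h2, hq2.trans h3, fun c hc => ⟨(hq3 c hc).1, fun k hk hf => ?_⟩⟩
  have h4 := (hq3 c hc).2 k hk hf
  rwa [join_right (htH.zero (ha c hc).2.2)] at h4

/-- the length of a stem with one more block -/
theorem flatten_snoc (a : List (List Sym)) (β : List Sym) :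
    (a ++ [β]).flatten = a.flatten ++ β := by
  rw [List.flatten_append, List.flatten_cons, List.flatten_nil, List.append_nil]

theorem entOk_union {e : Ω} {σ : List (List Sym)} {x y : Ent Ω} (hx : S.EntOk e x)
    (hy : ∀ ν ∈ y.side, (S.cat e = true → S.Nme e ν) ∧
      (S.cat e = false → ν < e ∧ S.lab e ≤ S.lab ν ∧ S.Val ν)) :
    S.EntOk e ⟨σ, x.side ∪ y.side⟩ := by
  refine ⟨fun hc => ⟨(hx.1 hc).1, fun ν hν => ?_⟩, fun hc γ hγ => ?_⟩
  · rcases Finset.mem_union.1 hν with hν | hν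
    · exact (hx.1 hc).2 ν hν
    · exact (hy ν hν).1 hc
  · rcases Finset.mem_union.1 hγ with hγ | hγ
    · exact hx.2 hc γ hγ
    · exact (hy γ hγ).2 hc

theorem side_ok {e : Ω} {t : Cd Ω} (ht : S.Cond t) : ∀ ν ∈ (t e).side,
    (S.cat e = true → S.Nme e ν) ∧ (S.cat e = false → ν < e ∧ S.lab e ≤ S.lab ν ∧ S.Val ν) := by
  intro ν hν
  have h0 : t e ≠ 0 := by
    intro h
    rw [h] at hν
    exact absurd hν (Finset.notMem_empty _)
  exact ⟨fun hc => ((ht.2 e h0).1 hc).2 ν hν, fun hc => (ht.2 e h0).2 hc ν hν⟩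

open Classical in
/-- the step at a coordinate of the hull that is not a catcher -/
theorem red_stepM (hH : S.Closed H) {e e₁ : Ω} (ih : RedAt S H e₁) {p : Cd Ω}
    (hp : S.CondB e p) (hpe : p e₁ ≠ 0) (hmax : ∀ d, e₁ < d → p d ≠ 0 → d ∉ H.co)
    (heH : e₁ ∈ H.co) (hcat : S.cat e₁ = false) (a : Finset Ω)
    (ha : ∀ c ∈ a, c < e ∧ S.Val c ∧ c ∉ H.co) :
    ∃ ρ, S.CondB e ρ ∧ S.InH H ρ ∧ ∀ t, S.CondB e t → S.InH H t → S.Le t ρ → ∀ w,
      ∃ q, S.CondB e q ∧ S.Le q p ∧ S.Le q t ∧ ∀ c ∈ a, w ≤ (q c).word.length ∧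
        ∀ k < w, Flag (q c) k → Flag (p c) k := by
  have he : e₁ < e := hp.lt hpe
  have hok := (hp.cond.2 e₁ hpe)
  set A := (p e₁).side with hA
  set A' := A.filter (fun γ => γ ∉ H.co) with hA'
  -- the length
  obtain ⟨l, hl⟩ : ∃ l : ℕ, ∀ γ ∈ A', (p γ).word.length ≤ l := by
    refine ⟨∑ γ ∈ A', (p γ).word.length, fun γ hγ => ?_⟩
    exact Finset.single_le_sum (f := fun γ => (p γ).word.length) (fun _ _ => Nat.zero_le _) hγ
  set β₀ : List Sym := List.replicate l (false, false) with hβ₀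
  set σ := (p e₁).stem ++ [β₀] with hσ
  obtain ⟨ρ₀, hρ1, hρ2, hρ3⟩ := ih (Sys.cut e₁ p) (hp.cond.cut e₁) (a.filter (· < e₁) ∪ A') (by
    intro c hc
    rcases Finset.mem_union.1 hc with hc | hc
    · rw [Finset.mem_filter] at hc
      exact ⟨hc.2, (ha c hc.1).2⟩
    · rw [hA', Finset.mem_filter] at hc
      have := hok.2 hcat c hc.1
      exact ⟨this.1, this.2.2, hc.2⟩)
  set x₀ : Ent Ω := ⟨σ, A.filter (fun γ => γ ∈ H.co)⟩ with hx₀
  have hρ := Sys.mix_le (x := x₀) hρ1 Sys.cond_zero (Sys.Le.leB hρ1.cond.1 e₁) (by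
    refine ⟨fun hc => ?_, fun _ γ hγ => ?_⟩
    · rw [hcat] at hc; exact absurd hc (by simp)
    · exact hok.2 hcat γ (Finset.mem_filter.1 hγ).1) (by
    refine ⟨Finset.empty_subset _, σ, rfl, fun b β c hbs => ?_⟩
    simp only [hcat]
    intro k t' hk γ hγ
    exact absurd hγ (Finset.notMem_empty _))
  set ρ := Sys.mix e₁ ρ₀ x₀ 0 with hρdef
  refine ⟨ρ, ?_, ?_, ?_⟩
  · refine Sys.CondB_iff'.2 ⟨hρ.1, fun d hd0 => ?_⟩
    rcases lt_trichotomy d e₁ with hde | rfl | hde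
    · exact hde.trans he
    · exact he
    · rw [hρdef, Sys.mix_gt hde] at hd0
      exact (hd0 rfl).elim
  · intro d hd0
    rcases lt_trichotomy d e₁ with hde | rfl | hde
    · rw [hρdef, Sys.mix_lt hde] at hd0 ⊢
      exact hρ2 d hd0
    · rw [hρdef, Sys.mix_self]
      refine ⟨heH, fun hc => ?_, fun _ γ hγ => (Finset.mem_filter.1 hγ).2⟩
      rw [hcat] at hc; exact absurd hc (by simp)
    · rw [hρdef, Sys.mix_gt hde] at hd0
      exact (hd0 rfl).elim
  · intro t ht htH htρ w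
    obtain ⟨hs1, bs, hs2, hs3⟩ := htρ e₁
    rw [hρdef, Sys.mix_self] at hs1 hs2 hs3
    simp only [hx₀] at hs1 hs2 hs3
    have ht1 : S.Le (Sys.cut e₁ t) ρ₀ := by
      have h1 := Sys.cut_le_cut (htρ.leB e₁)
      have h2 : Sys.cut e₁ ρ = ρ₀ := by
        ext1 d
        by_cases hd : d < e₁
        · rw [Sys.cut_lt hd, hρdef, Sys.mix_lt hd]
        · rw [Sys.cut_ge (not_lt.1 hd), hρ1.zero_of_le (not_lt.1 hd)]
      rwa [h2] at h1
    obtain ⟨q', hq1, hq2, hq3, hq4⟩ := hρ3 (Sys.cut e₁ t) (ht.cond.cut e₁) (htH.cut e₁) ht1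
      (max w (t e₁).word.length)
    have hqp : S.LeB e₁ q' p := Sys.LeB_cut_right.1 (hq2.leB e₁)
    have hqt : S.LeB e₁ q' t := Sys.LeB_cut_right.1 (hq3.leB e₁)
    have hflag : ∀ c ∈ a.filter (· < e₁) ∪ A', c < e₁ → max w (t e₁).word.length ≤
        (q' c).word.length ∧ ∀ k < max w (t e₁).word.length, Flag (q' c) k → Flag (p c) k := by
      intro c hc hce
      have h1 := hq4 c hc
      rw [Sys.cut_lt hce] at h1
      exact h1
    refine red_finish (x := ⟨(t e₁).stem, A ∪ (t e₁).side⟩) hp ht htH he hmax heH hq1 hqp hqt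
      (entOk_union hok (side_ok ht.cond)) ?_ ?_ a ha w ?_
    · -- extension of `p e₁`
      refine ⟨Finset.subset_union_left, [β₀] ++ bs, ?_, ?_⟩
      · show (t e₁).stem = _
        rw [hs2, hσ, List.append_assoc]
      · intro b β c hbs
        simp only [hcat]
        rcases b with _ | ⟨b₀, b⟩
        · -- the block `β₀`
          rw [List.nil_append, List.singleton_append, List.cons.injEq] at hbs
          obtain ⟨rfl, -⟩ := hbs
          intro k t' hk
          rw [hβ₀] at hk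
          have := List.mem_replicate.1 (List.mem_of_getElem? hk)
          simp at this
        · rw [List.singleton_append, List.cons_append, List.cons.injEq] at hbs
          obtain ⟨rfl, hbs⟩ := hbs
          have h4 := hs3 b β c hbs
          simp only [hcat] at h4
          have hofs : ((p e₁).stem ++ β₀ :: b).flatten.length = (σ ++ b).flatten.length := by
            rw [hσ, List.append_assoc, List.singleton_append]
          rw [hofs]
          intro k t' hk γ hγ hγe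
          by_cases hγH : γ ∈ H.co
          · obtain ⟨i, hi⟩ := h4 k t' hk γ (Finset.mem_filter.2 ⟨hγ, hγH⟩) hγe
            obtain ⟨w', hw'⟩ := hqt.word γ hγe
            refine ⟨i, ?_⟩
            rw [← hw', List.getElem?_append_left (List.getElem?_eq_some_iff.1 hi).1, hi]
          · have hγA : γ ∈ A' := Finset.mem_filter.2 ⟨hγ, hγH⟩
            obtain ⟨h5, h6⟩ := hflag γ (Finset.mem_union_right _ hγA) hγe
            have hlen : (σ ++ b).flatten.length + k < (t e₁).word.length := by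
              rw [Ent.word, hs2, hbs]
              have hk' := (List.getElem?_eq_some_iff.1 hk).1
              simp only [List.flatten_append, List.flatten_cons, List.length_append]
              omega
            have h7 : (σ ++ b).flatten.length + k < (q' γ).word.length :=
              hlen.trans_le ((le_max_right _ _).trans h5)
            obtain ⟨⟨i, f⟩, hif⟩ : ∃ s, (q' γ).word[(σ ++ b).flatten.length + k]? = some s :=
              ⟨_, List.getElem?_eq_getElem h7⟩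
            rcases f with _ | _
            · exact ⟨i, hif⟩
            · exfalso
              obtain ⟨j, hj⟩ := h6 _ (hlen.trans_le (le_max_right _ _)) ⟨i, hif⟩
              have h8 := (List.getElem?_eq_some_iff.1 hj).1
              have h9 := hl γ hγA
              have h10 : l ≤ (σ ++ b).flatten.length := by
                rw [hσ]
                simp only [List.flatten_append, List.flatten_cons, List.flatten_nil,
                  List.append_nil, List.length_append, hβ₀, List.length_replicate]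
                omega
              omega
    · exact Sys.Loc.of_side rfl Finset.subset_union_right
    · intro c hc hce k hk hf
      exact (hflag c (Finset.mem_union_left _ (Finset.mem_filter.2 ⟨hc, hce⟩)) hce).2 k
        (hk.trans_le (le_max_left _ _)) hf

/-- finitely many names are decided up to `m` -/
theorem decide_all {c : Ω} (A : Finset Ω) (hA : ∀ x ∈ A, S.Nme c x) (m : ℕ) {p : Cd Ω}
    (hp : S.CondB c p) : ∃ q, S.CondB c q ∧ S.Le q p ∧ ∃ f : Ω → ℕ → Bool, ∀ x ∈ A, ∀ k < m,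
      S.Says (S.LeB c q) x k (f x k) := by
  classical
  induction A using Finset.induction_on with
  | empty => exact ⟨p, hp, Sys.Le.refl p, fun _ _ => false, by simp⟩
  | insert x A hx ih =>
    obtain ⟨q, h1, h2, f, h3⟩ := ih fun y hy => hA y (Finset.mem_insert_of_mem hy)
    obtain ⟨r, h4, h5, g, h6⟩ := EXT.decide_many (hA x (Finset.mem_insert_self _ _)) m h1
    refine ⟨r, h4, h5.trans h2, fun y => if y = x then g else f y, fun y hy k hk => ?_⟩
    by_cases hyx : y = x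
    · subst hyx
      simp only [if_true]
      exact h6 k hk
    · simp only [if_neg hyx]
      exact EXT.says_of_le h5 (h3 y (Finset.mem_of_mem_insert_of_ne hy hyx) k hk)

/-- a family that is predense in the conditions of the hull is predense -/
theorem RedAt.predense {e : Ω} (ih : RedAt S H e) {p : Cd Ω} (hp : S.CondB e p) :
    ∃ ρ, S.CondB e ρ ∧ S.InH H ρ ∧ ∀ t, S.CondB e t → S.InH H t → S.Le t ρ →
      ∃ q, S.CondB e q ∧ S.Le q p ∧ S.Le q t := by
  obtain ⟨ρ, h1, h2, h3⟩ := ih p hp ∅ (by simp)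
  refine ⟨ρ, h1, h2, fun t ht htH hle => ?_⟩
  obtain ⟨q, h4, h5, h6, -⟩ := h3 t ht htH hle 0
  exact ⟨q, h4, h5, h6⟩

open Classical in
/-- the step at a catcher of the hull -/
theorem red_stepC (hH : S.Closed H) {e e₁ : Ω} (ih : RedAt S H e₁) {p : Cd Ω}
    (hp : S.CondB e p) (hpe : p e₁ ≠ 0) (hmax : ∀ d, e₁ < d → p d ≠ 0 → d ∉ H.co)
    (heH : e₁ ∈ H.co) (hcat : S.cat e₁ = true) (a : Finset Ω)
    (ha : ∀ c ∈ a, c < e ∧ S.Val c ∧ c ∉ H.co) :
    ∃ ρ, S.CondB e ρ ∧ S.InH H ρ ∧ ∀ t, S.CondB e t → S.InH H t → S.Le t ρ → ∀ w,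
      ∃ q, S.CondB e q ∧ S.Le q p ∧ S.Le q t ∧ ∀ c ∈ a, w ≤ (q c).word.length ∧
        ∀ k < w, Flag (q c) k → Flag (p c) k := by
  have he : e₁ < e := hp.lt hpe
  obtain ⟨hval, hside⟩ := (hp.cond.2 e₁ hpe).1 hcat
  have hnamH : S.nam e₁ ∈ H.na := hH.nam e₁ heH hcat
  set A := (p e₁).side with hA
  have hpc : S.CondB e₁ (Sys.cut e₁ p) := hp.cond.cut e₁
  obtain ⟨ρ₀, hρ1, hρ2, hρ3⟩ := ih (Sys.cut e₁ p) hpc (a.filter (· < e₁)) (by
    intro c hc
    rw [Finset.mem_filter] at hc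
    exact ⟨hc.2, (ha c hc.1).2⟩)
  -- a better reduction
  obtain ⟨q₀, hq1, hq2, hq3, -⟩ := hρ3 ρ₀ hρ1 hρ2 (Sys.Le.refl _) 0
  set ρ₁ := S.res H q₀ with hρ₁
  have hr1 : S.CondB e₁ ρ₁ := hq1.res hH
  have hr2 : S.InH H ρ₁ := Sys.res_inH q₀
  have hr3 : S.Le ρ₁ ρ₀ := Sys.res_le hH hρ2 hq3
  have hr4 : ∀ c, S.InH H c → S.LeB e₁ p c → S.LeB e₁ ρ₁ c := by
    intro c hc hle
    exact Sys.leB_res hH hc ((Sys.LeB_cut_right.1 (hq2.leB e₁)).trans hle)
  -- the tree
  let Q : Type := {t : Cd Ω // S.CondB e₁ t ∧ S.InH H t ∧ S.Le t ρ₁}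
  let _ : Preorder Q :=
    { le := fun t t' => S.Le t.1 t'.1
      le_refl := fun t => Sys.Le.refl t.1
      le_trans := fun _ _ _ h h' => Sys.Le.trans h h' }
  let B : Type := {x // x ∈ A} → Bool
  let R : Q → List B → Prop := fun t z => ∃ q, S.CondB e₁ q ∧ S.Le q (Sys.cut e₁ p) ∧
    S.Le q t.1 ∧ (∀ c ∈ a, c < e₁ → ∀ k < z.length, Flag (q c) k → Flag (p c) k) ∧
    (∀ c ∈ a, c < e₁ → z.length ≤ (q c).word.length) ∧
    ∀ k b, z[k]? = some b → ∀ x : {x // x ∈ A}, S.Says (S.LeB e₁ q) x.1 k (b x)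
  have hRm : ∀ t t' z, t' ≤ t → R t' z → R t z := by
    rintro t t' z htt ⟨q, h1, h2, h3, h4, h5, h6⟩
    exact ⟨q, h1, h2, h3.trans htt, h4, h5, h6⟩
  have hRp : ∀ t z z', z <+: z' → R t z' → R t z := by
    rintro t z z' ⟨s, rfl⟩ ⟨q, h1, h2, h3, h4, h5, h6⟩
    refine ⟨q, h1, h2, h3, fun c hc hce k hk => h4 c hc hce k ?_, fun c hc hce => ?_,
      fun k b hk => h6 k b ?_⟩
    · rw [List.length_append]; omega
    · have := h5 c hc hce
      rw [List.length_append] at this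
      omega
    · rw [List.getElem?_append_left (List.getElem?_eq_some_iff.1 hk).1, hk]
  have hR : ∀ t m, ∃ z, z.length = m ∧ R t z := by
    rintro ⟨t, ht1, ht2, ht3⟩ m
    obtain ⟨q, h1, h2, h3, h4⟩ := hρ3 t ht1 ht2 (ht3.trans hr3) m
    obtain ⟨r, h5, h6, f, h7⟩ := decide_all A hside m h1
    refine ⟨List.ofFn fun k : Fin m => fun x : {x // x ∈ A} => f x.1 k, by simp, r, h5,
      h6.trans h2, h6.trans h3, ?_, ?_, ?_⟩
    · intro c hc hce k hk hf
      rw [List.length_ofFn] at hk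
      obtain ⟨h8, h9⟩ := h4 c (Finset.mem_filter.2 ⟨hc, hce⟩)
      rw [Sys.cut_lt hce] at h9
      apply h9 k hk
      obtain ⟨i, hi⟩ := hf
      obtain ⟨w', hw'⟩ := h6.word c
      refine ⟨i, ?_⟩
      rw [← hw', List.getElem?_append_left (hk.trans_le h8)] at hi
      exact hi
    · intro c hc hce
      rw [List.length_ofFn]
      obtain ⟨h8, -⟩ := h4 c (Finset.mem_filter.2 ⟨hc, hce⟩)
      exact h8.trans (h6.word c).length_le
    · intro k b hk x
      obtain ⟨hk1, hk2⟩ := List.getElem?_eq_some_iff.1 hk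
      rw [List.length_ofFn] at hk1
      rw [List.getElem_ofFn] at hk2
      rw [← hk2]
      exact h7 x.1 x.2 k hk1
  obtain ⟨D, hD1, hD2, hD3, hD4⟩ := leftmost R hRm hRp hR
  -- the names
  have hname : ∀ x : {x // x ∈ A}, ∃ ν, S.Nme e₁ ν ∧ ν ∈ H.na ∧ ∀ k n,
      (∃ h : S.CondB e₁ (S.dec ν k n).1 ∧ S.InH H (S.dec ν k n).1 ∧ S.Le (S.dec ν k n).1 ρ₁,
        ∃ z, D ⟨_, h⟩ z ∧ ∃ b, z[k]? = some b ∧ b x = (S.dec ν k n).2) ∨
      (¬ ∃ r, S.CondB e₁ r ∧ S.InH H r ∧ S.Le r (S.dec ν k n).1 ∧ S.Le r ρ₁) := by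
    intro x
    let E : ℕ → Cd Ω → Bool → Prop := fun k t i => S.CondB e₁ t ∧ S.InH H t ∧
      ((∃ h : S.CondB e₁ t ∧ S.InH H t ∧ S.Le t ρ₁, ∃ z, D ⟨t, h⟩ z ∧ ∃ b, z[k]? = some b ∧
        b x = i) ∨ (i = false ∧ ¬ ∃ r, S.CondB e₁ r ∧ S.InH H r ∧ S.Le r t ∧ S.Le r ρ₁))
    obtain ⟨ν, hν1, hν2⟩ := Sys.exists_name (S := S) (C := S.CondB e₁) (fun p hp => hp.cond)
      (fun p q r hp hq hr h1 h2 => ⟨Sys.cut e₁ r, hr.cut e₁,
        hp.le_of_leB (hr.cut e₁).cond (Sys.LeB_cut_left.2 (h1.leB e₁)),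
        hq.le_of_leB (hr.cut e₁).cond (Sys.LeB_cut_left.2 (h2.leB e₁))⟩)
      (Sys.condB_zero e₁) E (fun k t i h => h.1) (by
        intro k p' hp'
        obtain ⟨ρ', g1, g2, g3⟩ := ih.predense hp'
        by_cases hcomp : ∃ r, S.CondB e₁ r ∧ S.InH H r ∧ S.Le r ρ' ∧ S.Le r ρ₁
        · obtain ⟨r, r1, r2, r3, r4⟩ := hcomp
          obtain ⟨⟨t, ht⟩, htr, z, hz, hDz⟩ := hD2 ⟨r, r1, r2, r4⟩ (k + 1)
          have hk : k < z.length := by omega
          have htr' : S.Le t r := htr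
          obtain ⟨q, q1, q2, q3⟩ := g3 t ht.1 ht.2.1 (htr'.trans r3)
          exact ⟨t, z[k] x, q, ⟨ht.1, ht.2.1, Or.inl ⟨ht, z, hDz, z[k],
            List.getElem?_eq_getElem hk, rfl⟩⟩, q1, q2, q3⟩
        · obtain ⟨q, q1, q2, q3⟩ := g3 ρ' g1 g2 (Sys.Le.refl _)
          exact ⟨ρ', false, q, ⟨g1, g2, Or.inr ⟨rfl, hcomp⟩⟩, q1, q2, q3⟩) (by
        rintro k t t' i i' r ⟨a1, a2, a3⟩ ⟨b1, b2, b3⟩ hr hrt hrt'
        have s1 : S.CondB e₁ (S.res H r) := hr.res hH
        have s2 : S.InH H (S.res H r) := Sys.res_inH r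
        have s3 : S.Le (S.res H r) t := Sys.res_le hH a2 hrt
        have s4 : S.Le (S.res H r) t' := Sys.res_le hH b2 hrt'
        rcases a3 with ⟨ht, z, hz, b, hb, rfl⟩ | ⟨rfl, hno⟩
        · rcases b3 with ⟨ht', z', hz', b', hb', rfl⟩ | ⟨rfl, hno'⟩
          · have s5 : S.CondB e₁ (S.res H r) ∧ S.InH H (S.res H r) ∧ S.Le (S.res H r) ρ₁ :=
              ⟨s1, s2, s3.trans ht.2.2⟩
            have z1 := hD1 ⟨t, ht⟩ ⟨_, s5⟩ z s3 hz
            have z2 := hD1 ⟨t', ht'⟩ ⟨_, s5⟩ z' s4 hz'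
            have hbb : b = b' := by
              rcases le_total z.length z'.length with hle | hle
              · obtain ⟨w', rfl⟩ := hD3 _ _ _ z1 z2 hle
                rw [List.getElem?_append_left (List.getElem?_eq_some_iff.1 hb).1, hb] at hb'
                exact Option.some.inj hb'
              · obtain ⟨w', rfl⟩ := hD3 _ _ _ z2 z1 hle
                rw [List.getElem?_append_left (List.getElem?_eq_some_iff.1 hb').1, hb'] at hb
                exact (Option.some.inj hb).symm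
            rw [hbb]
          · exact (hno' ⟨_, s1, s2, s4, s3.trans ht.2.2⟩).elim
        · rcases b3 with ⟨ht', z', hz', b', hb', rfl⟩ | ⟨rfl, hno'⟩
          · exact (hno ⟨_, s1, s2, s3, s4.trans ht'.2.2⟩).elim
          · rfl)
    refine ⟨ν, hν1, (hH.dec ν).2 fun k n => (hν2 k n).2.1, fun k n => ?_⟩
    rcases (hν2 k n).2.2 with h | h
    · exact Or.inl h
    · exact Or.inr h.2
  choose ν hν1 hν2 hν3 using hname
  set x₀ : Ent Ω := ⟨(p e₁).stem, Finset.univ.image ν⟩ with hx₀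
  have hok₀ : S.EntOk e₁ x₀ := by
    refine ⟨fun _ => ⟨hval, fun μ hμ => ?_⟩, fun hc => ?_⟩
    · obtain ⟨x, -, rfl⟩ := Finset.mem_image.1 hμ
      exact hν1 x
    · rw [hcat] at hc; exact absurd hc (by simp)
  have hρ := Sys.mix_le (x := x₀) hr1 Sys.cond_zero (Sys.Le.leB hr1.cond.1 e₁) hok₀ (by
    obtain ⟨-, bs, h2, h3⟩ := hp.cond.1 e₁
    refine ⟨Finset.empty_subset _, bs, h2, fun b β c hbs => ?_⟩
    have h4 := h3 b β c hbs
    simp only [hcat, if_true] at h4 ⊢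
    obtain ⟨⟨u, v, u1, u2, u3, u4, u5, u6⟩, -⟩ := h4
    refine ⟨⟨u, v, u1, u2, u3, ?_, ?_, u6⟩, fun x hx => absurd hx (Finset.notMem_empty _)⟩
    · obtain ⟨n, n1, n2⟩ := u4
      exact ⟨n, n1, hr4 _ ((hH.dec _).1 hnamH _ _) n2⟩
    · obtain ⟨n, n1, n2⟩ := u5
      exact ⟨n, n1, hr4 _ ((hH.dec _).1 hnamH _ _) n2⟩)
  set ρ := Sys.mix e₁ ρ₁ x₀ 0 with hρdef
  refine ⟨ρ, ?_, ?_, ?_⟩
  · refine Sys.CondB_iff'.2 ⟨hρ.1, fun d hd0 => ?_⟩
    rcases lt_trichotomy d e₁ with hde | rfl | hde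
    · exact hde.trans he
    · exact he
    · rw [hρdef, Sys.mix_gt hde] at hd0
      exact (hd0 rfl).elim
  · intro d hd0
    rcases lt_trichotomy d e₁ with hde | rfl | hde
    · rw [hρdef, Sys.mix_lt hde] at hd0 ⊢
      exact hr2 d hd0
    · rw [hρdef, Sys.mix_self]
      refine ⟨heH, fun _ μ hμ => ?_, fun hc => ?_⟩
      · obtain ⟨x, -, rfl⟩ := Finset.mem_image.1 hμ
        exact hν2 x
      · rw [hcat] at hc; exact absurd hc (by simp)
    · rw [hρdef, Sys.mix_gt hde] at hd0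
      exact (hd0 rfl).elim
  · intro t ht htH htρ w
    obtain ⟨hs1, bs, hs2, hs3⟩ := htρ e₁
    rw [hρdef, Sys.mix_self] at hs1 hs2 hs3
    simp only [hx₀] at hs1 hs2 hs3
    have ht1 : S.Le (Sys.cut e₁ t) ρ₁ := by
      have h1 := Sys.cut_le_cut (htρ.leB e₁)
      have h2 : Sys.cut e₁ ρ = ρ₁ := by
        ext1 d
        by_cases hd : d < e₁
        · rw [Sys.cut_lt hd, hρdef, Sys.mix_lt hd]
        · rw [Sys.cut_ge (not_lt.1 hd), hr1.zero_of_le (not_lt.1 hd)]
      rwa [h2] at h1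
    have hQ : S.CondB e₁ (Sys.cut e₁ t) ∧ S.InH H (Sys.cut e₁ t) ∧ S.Le (Sys.cut e₁ t) ρ₁ :=
      ⟨ht.cond.cut e₁, htH.cut e₁, ht1⟩
    obtain ⟨⟨t₂, ht₂⟩, ht21, z, hz, hDz⟩ := hD2 ⟨_, hQ⟩ (max w (t e₁).word.length)
    have ht21' : S.Le t₂ (Sys.cut e₁ t) := ht21
    obtain ⟨q', hq'1, hq'2, hq'3, hq'4, hq'5, hq'6⟩ := hD4 _ _ hDz
    have hq'3' : S.Le q' t₂ := hq'3
    have hqp : S.LeB e₁ q' p := Sys.LeB_cut_right.1 (hq'2.leB e₁)
    have hqt : S.LeB e₁ q' t := Sys.LeB_cut_right.1 ((hq'3'.trans ht21').leB e₁)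
    refine red_finish (x := ⟨(t e₁).stem, A ∪ (t e₁).side⟩) hp ht htH he hmax heH hq'1 hqp hqt
      (entOk_union (hp.cond.2 e₁ hpe) (side_ok ht.cond)) ?_ ?_ a ha w ?_
    · refine ⟨Finset.subset_union_left, bs, hs2, fun b β c hbs => ?_⟩
      have h4 := hs3 b β c hbs
      simp only [hcat, if_true] at h4 ⊢
      obtain ⟨⟨u, v, u1, u2, u3, u4, u5, u6⟩, h5⟩ := h4
      refine ⟨⟨u, v, u1, u2, u3, u4.mono fun c hc => hqt.trans hc,
        u5.mono fun c hc => hqt.trans hc, u6⟩, fun x hx => ?_⟩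
      obtain ⟨u, v, u1, u2, u3, u4, u5, u6⟩ := h5 (ν ⟨x, hx⟩)
        (Finset.mem_image.2 ⟨_, Finset.mem_univ _, rfl⟩)
      refine ⟨u, v, u1, u2, u3, u4.mono fun c hc => hqt.trans hc,
        u5.mono fun c hc => hqt.trans hc, fun k hk1 hk2 => ?_⟩
      obtain ⟨i, f, hi, n, hn1, hn2⟩ := u6 k hk1 hk2
      refine ⟨i, f, hi, ?_⟩
      have hcn : S.CondB e₁ (S.dec (ν ⟨x, hx⟩) k n).1 := (hν1 ⟨x, hx⟩).mem k n
      have ht2n : S.Le t₂ (S.dec (ν ⟨x, hx⟩) k n).1 := by
        refine hcn.le_of_leB ht₂.1.cond ?_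
        exact (Sys.LeB_cut_right.1 (ht21'.leB e₁)).trans hn2
      rcases hν3 ⟨x, hx⟩ k n with ⟨h, z', hz', b', hb', hb'x⟩ | hno
      · have z1 := hD1 ⟨_, h⟩ ⟨t₂, ht₂⟩ z' ht2n hz'
        have hklen : k < z.length := by
          rw [hz]
          have hw1 : v ≤ (t e₁).word.length := by
            refine u3.trans ?_
            rw [Ent.word, hs2, hbs]
            simp only [List.flatten_append, List.flatten_cons, List.length_append]
            omega
          exact hk2.trans_le (hw1.trans (le_max_right _ _))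
        have hzb : z[k]? = some b' := by
          rcases le_total z.length z'.length with hle | hle
          · obtain ⟨w', rfl⟩ := hD3 _ _ _ hDz z1 hle
            rw [List.getElem?_append_left hklen] at hb'
            exact hb'
          · obtain ⟨w', rfl⟩ := hD3 _ _ _ z1 hDz hle
            rw [List.getElem?_append_left (List.getElem?_eq_some_iff.1 hb').1]
            exact hb'
        have h9 := hq'6 k b' hzb ⟨x, hx⟩
        rw [hb'x, hn1] at h9
        exact h9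
      · exact (hno ⟨t₂, ht₂.1, ht₂.2.1, ht2n, ht₂.2.2⟩).elim
    · exact Sys.Loc.of_side rfl Finset.subset_union_right
    · intro c hc hce k hk hf
      refine hq'4 c hc hce k ?_ hf
      rw [hz]
      exact hk.trans_le (le_max_left _ _)

open Classical in
/-- **strong reductions** -/
theorem Sys.reduction (hH : S.Closed H) :
    ∀ (e : Ω) (p : Cd Ω), S.CondB e p → ∀ a : Finset Ω,
      (∀ c ∈ a, c < e ∧ S.Val c ∧ c ∉ H.co) →
      ∃ ρ, S.CondB e ρ ∧ S.InH H ρ ∧ ∀ t, S.CondB e t → S.InH H t → S.Le t ρ → ∀ w,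
        ∃ q, S.CondB e q ∧ S.Le q p ∧ S.Le q t ∧ ∀ c ∈ a, w ≤ (q c).word.length ∧
          ∀ k < w, Flag (q c) k → Flag (p c) k := by
  intro e
  induction e using WellFoundedLT.induction with
  | _ e ih =>
    intro p hp a ha
    by_cases h0 : ∀ d ∈ H.co, p d = 0
    · exact red_zero hp h0 a ha
    · push Not at h0
      obtain ⟨d₀, hd₀, hpd₀⟩ := h0
      set s := p.support.filter (fun d => d ∈ H.co) with hs
      have hne : s.Nonempty := ⟨d₀, Finset.mem_filter.2 ⟨Finsupp.mem_support_iff.2 hpd₀, hd₀⟩⟩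
      set e₁ := s.max' hne with he₁
      have he₁s : e₁ ∈ s := Finset.max'_mem s hne
      obtain ⟨h1, h2⟩ := Finset.mem_filter.1 he₁s
      have h3 : p e₁ ≠ 0 := Finsupp.mem_support_iff.1 h1
      have hmax : ∀ d, e₁ < d → p d ≠ 0 → d ∉ H.co := by
        intro d hd hpd hdH
        exact absurd (Finset.le_max' s d (Finset.mem_filter.2
          ⟨Finsupp.mem_support_iff.2 hpd, hdH⟩)) (not_le.2 hd)
      rcases hc : S.cat e₁ with _ | _
      · exact red_stepM hH (ih e₁ (hp.lt h3)) hp h3 hmax h2 hc a ha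
      · exact red_stepC hH (ih e₁ (hp.lt h3)) hp h3 hmax h2 hc a ha

end Pool.Agent.Helper60.MA
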