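import Pool.Agent.Helper42.MA.PAR
import Pool.Agent.Helper60.MA.Flag
import Pool.Agent.Helper60.MA.MDefs
import Pool.Agent.Helper26.FV.DF
import Pool.Agent.Helper96.Fc.Good

/-!
# Auxiliary notions for the model: tables, requirements, generic reals
-/

set_option linter.unusedSectionVars false
set_option linter.unusedVariables false

namespace Pool.Agent.Helper60.MA

open Pool.Agent.Helper96.Fc Cardinal Ordinal
open Pool.Agent.Helper89.FV (nat om Tab)

/-- the relations in `𝓡` belong to `N` -/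
def HasTabs (N : Set ZFSet.{0}) (𝓡 : Set (ℕ → ℕ → ℕ → Prop)) : Prop := ∀ R ∈ 𝓡, Tab N R

/-- infinitely often true -/
def Inf (I : ℕ → Bool) : Prop := ∀ m, ∃ k, m ≤ k ∧ I k = true

/-- `x` agrees with `y` on an interval with end points in `I` inside `[l, l')` -/
def Agr (I y x : ℕ → Bool) (l l' : ℕ) : Prop :=
  ∃ u v, l ≤ u ∧ u < v ∧ v ≤ l' ∧ I u = true ∧ I v = true ∧ ∀ k, u ≤ k → k < v → x k = y k

/-- almost all intervals given by `K` contain an interval given by `I` on which `x` is `y` -/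
def Caught (I K y x : ℕ → Bool) : Prop :=
  ∃ m, ∀ l l', m ≤ l → l < l' → K l = true → K l' = true → Agr I y x l l'

/-- `x` agrees with `h` on infinitely many intervals given by `J` -/
def Mtch (J h x : ℕ → Bool) : Prop := ∀ m, ∃ l', Agr J h x m l'

/-- countably many requirements on a pair `(X, G)` -/
structure Req (P : Type) [PartialOrder P] : Type 1 where
  K : Type
  cK : Countable K
  R : K → P → List (Obj P) → Prop
  O : K → List (Obj P) → Obj P → Prop
  hO : ∀ k l y z, O k l y → O k l z → y = z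

/-- the requirements are satisfied -/
structure Req.Sat {P : Type} [PartialOrder P] (r : Req P) (X : Set (Obj P)) (G : Set P) :
    Prop where
  gen : ∀ k, GenR X G (r.R k)
  clo : ∀ k l y, (∀ a ∈ l, a ∈ X) → r.O k l y → y ∈ X

/-! ### Names of coordinates and labels -/

variable {S : Sys Om La}

/-- the canonical name that represents the coordinate (or the code) `e` -/
noncomputable def cN (S : Sys Om La) (e : Om) : Nm (Pos S) := ordN (Pos S) (ToType.toOrd e).1

/-- the canonical name that represents the label `l` -/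
noncomputable def lN (S : Sys Om La) (l : La) : Nm (Pos S) := ordN (Pos S) (ToType.toOrd l).1

/-- the coordinates (and codes) in the model -/
def EX (S : Sys Om La) (X : Set (Obj (Pos S))) : Set Om := {e | Sum.inl (cN S e) ∈ X}

/-- the raw conditions of the filter -/
def raw {Ω L : Type} [LinearOrder Ω] [LinearOrder L] [WellFoundedLT Ω] {S : Sys Ω L}
    (G : Set (Pos S)) : Set (Cd Ω) := {p | ∃ h : S.Cond p, (⟨p, h⟩ : Pos S) ∈ G}

section

variable {Ω L : Type} [LinearOrder Ω] [LinearOrder L]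

open Classical in
/-- the real with the name `ν` -/
noncomputable def rl (S : Sys Ω L) (G : Set (Cd Ω)) (ν : Ω) (k : ℕ) : Bool :=
  decide (∃ n, (S.dec ν k n).1 ∈ G ∧ (S.dec ν k n).2 = true)

open Classical in
/-- the generic real at the coordinate `e` (values of the stems) -/
noncomputable def gr (G : Set (Cd Ω)) (e : Ω) (k : ℕ) : Bool :=
  decide (∃ p ∈ G, ∃ t, (p e).word[k]? = some (true, t))

open Classical in
/-- the set of the ends of the blocks at the coordinate `e` -/
noncomputable def gk (G : Set (Cd Ω)) (e : Ω) (k : ℕ) : Bool :=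
  decide (∃ p ∈ G, ∃ a b, (p e).stem = a ++ b ∧ a.flatten.length = k)

/-- the filter `G` is generic with respect to the coordinates and names in `E` -/
structure Gen [WellFoundedLT Ω] (S : Sys Ω L) (E : Set Ω) (G : Set (Cd Ω)) : Prop where
  cond : ∀ p ∈ G, S.Cond p
  up : ∀ p ∈ G, ∀ q, S.Cond q → S.Le p q → q ∈ G
  dir : ∀ p ∈ G, ∀ q ∈ G, ∃ r ∈ G, S.Le r p ∧ S.Le r q
  name : ∀ e, ∀ ν ∈ E, S.Nme e ν → ∀ k, ∃ n, (S.dec ν k n).1 ∈ G
  side : ∀ e ∈ E, S.Val e → ∀ ν ∈ E, S.Nme e ν → ∃ p ∈ G, ν ∈ (p e).side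
  len : ∀ e ∈ E, (S.cat e = true → S.Val e) → ∀ m, ∃ p ∈ G, m ≤ (p e).word.length
  prom : ∀ α ∈ E, S.cat α = false → ∀ γ ∈ E, γ < α → S.Val γ → S.lab α ≤ S.lab γ →
    ∃ p ∈ G, γ ∈ (p α).side
  mtc : ∀ α ∈ E, S.cat α = false → ∀ J ∈ E, ∀ h ∈ E, S.Nme α J → S.IsPart (S.CondB α) J →
    S.Nme α h → (∃ H : Hull Ω, S.Closed H ∧ J ∈ H.na ∧ h ∈ H.na ∧
      ∀ e ∈ H.co, S.cat e = true → S.lab e < S.lab α) → ∀ m, ∃ q ∈ G, ∃ u v, m ≤ u ∧ u < v ∧
      v ≤ (q α).word.length ∧ S.Says (S.Le q) J u true ∧ S.Says (S.Le q) J v true ∧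
      ∀ k, u ≤ k → k < v → ∃ i t, (q α).word[k]? = some (i, t) ∧ S.Says (S.Le q) h k i

end

end Pool.Agent.Helper60.MA
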