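import Mathlib

/-!
# The iteration: conditions, order, names (ground level)

`Ω` is the (well-ordered) set of the coordinates of a finite support iteration; the elements of
`Ω` also serve as codes of names of reals. A coordinate is a catcher (`S.cat e`) or not; it has a
label `S.lab e`; a catcher `e` uses the name `S.nam e` of an interval partition.

A condition is a finitely supported function `p`; `p e` consists of a stem (a list of blocks, each
block a list of symbols (value, flag)) and of a finite set `side`.
-/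

namespace Pool.Agent.Helper60.MA

/-- symbols: value and flag -/
abbrev Sym : Type := Bool × Bool

/-- the entry of a condition at a coordinate -/
@[ext] structure Ent (Ω : Type) : Type where
  /-- the list of the blocks -/
  stem : List (List Sym)
  /-- the side condition: names of reals (at a catcher) or catchers (otherwise) -/
  side : Finset Ω

instance {Ω : Type} : Zero (Ent Ω) := ⟨⟨[], ∅⟩⟩

/-- the word of an entry -/
def Ent.word {Ω : Type} (x : Ent Ω) : List Sym := x.stem.flatten

/-- raw conditions -/
abbrev Cd (Ω : Type) : Type := Ω →₀ Ent Ω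

/-- the parameters of the iteration -/
structure Sys (Ω L : Type) : Type where
  /-- is the coordinate a catcher? -/
  cat : Ω → Bool
  /-- the label -/
  lab : Ω → L
  /-- the name of the partition (at a catcher) -/
  nam : Ω → Ω
  /-- decoding of names: for every `k` a sequence of (condition, value of the `k`-th bit) -/
  dec : Ω → ℕ → ℕ → Cd Ω × Bool
  /-- every table has a code -/
  surj : Function.Surjective dec

variable {Ω L : Type} [LinearOrder Ω] [LinearOrder L]

namespace Sys

variable (S : Sys Ω L)

/-- a condition with the property `D` is listed in the name `ν` for bit `k` is `i` -/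
def Says (D : Cd Ω → Prop) (ν : Ω) (k : ℕ) (i : Bool) : Prop :=
  ∃ n, (S.dec ν k n).2 = i ∧ D (S.dec ν k n).1

/-- a new block `β` at the offset `l` at the catcher `e` with the side condition `A` -/
def OkC (D : Cd Ω → Prop) (e : Ω) (A : Finset Ω) (l : ℕ) (β : List Sym) : Prop :=
  (∃ u v, l ≤ u ∧ u < v ∧ v ≤ l + β.length ∧ S.Says D (S.nam e) u true ∧
    S.Says D (S.nam e) v true ∧ ∀ k, u ≤ k → k < v → β[k - l]? = some (false, true)) ∧
  ∀ x ∈ A, ∃ u v, l ≤ u ∧ u < v ∧ v ≤ l + β.length ∧ S.Says D (S.nam e) u true ∧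
    S.Says D (S.nam e) v true ∧
    ∀ k, u ≤ k → k < v → ∃ i t, β[k - l]? = some (i, t) ∧ S.Says D x k i

/-- a new block `β` at the offset `l` at the coordinate `e` (not a catcher) with the side
condition `A`: where `β` has the value `true`, the catchers `γ ∈ A` must not have a flag -/
def OkM (q : Cd Ω) (e : Ω) (A : Finset Ω) (l : ℕ) (β : List Sym) : Prop :=
  ∀ k t, β[k]? = some (true, t) → ∀ γ ∈ A, γ < e → ∃ i, (q γ).word[l + k]? = some (i, false)

/-- the entry `x` of `q` extends the entry `y` at the coordinate `e`; `D c` says that `q`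
restricted below `e` extends `c` -/
def Loc (e : Ω) (q : Cd Ω) (D : Cd Ω → Prop) (x y : Ent Ω) : Prop :=
  y.side ⊆ x.side ∧ ∃ bs, x.stem = y.stem ++ bs ∧ ∀ a β c, bs = a ++ β :: c →
    if S.cat e then S.OkC D e y.side (y.stem ++ a).flatten.length β
    else OkM q e y.side (y.stem ++ a).flatten.length β

/-- the order restricted to the coordinates below `e` -/
def LeB [WellFoundedLT Ω] (e : Ω) (q p : Cd Ω) : Prop :=
  ∀ e', ∀ _ : e' < e, S.Loc e' q (fun c => LeB e' q c) (q e') (p e')
termination_by wellFounded_lt.wrap e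

variable [WellFoundedLT Ω]

/-- `q` extends `p` -/
def Le (q p : Cd Ω) : Prop := ∀ e, S.Loc e q (fun c => S.LeB e q c) (q e) (p e)

/-- `ν` is a name of a real for the set `C` of conditions -/
structure IsName (C : Cd Ω → Prop) (ν : Ω) : Prop where
  mem : ∀ k n, C (S.dec ν k n).1
  pre : ∀ k p, C p → ∃ n r, C r ∧ S.Le r p ∧ S.Le r (S.dec ν k n).1
  coh : ∀ k m n r, C r → S.Le r (S.dec ν k m).1 → S.Le r (S.dec ν k n).1 →
    (S.dec ν k m).2 = (S.dec ν k n).2

/-- `ν` names a real with infinitely many ones -/
def IsPart (C : Cd Ω → Prop) (ν : Ω) : Prop :=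
  ∀ p, C p → ∀ m, ∃ q k, C q ∧ S.Le q p ∧ m ≤ k ∧ S.Says (fun c => S.Le q c) ν k true

/-- `e` is a catcher and its name is correct, where `C` is the set of the conditions below `e` -/
structure Vd (C : Cd Ω → Prop) (e : Ω) : Prop where
  cat : S.cat e = true
  name : S.IsName C (S.nam e)
  part : S.IsPart C (S.nam e)

/-- `p` is a condition with support below `e` -/
def CondB (e : Ω) (p : Cd Ω) : Prop :=
  (∀ e', p e' ≠ 0 → e' < e) ∧ S.Le p 0 ∧ ∀ e', ∀ _ : e' < e, p e' ≠ 0 →
    (S.cat e' = true → S.Vd (fun c => CondB e' c) e' ∧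
      ∀ ν ∈ (p e').side, S.IsName (fun c => CondB e' c) ν) ∧
    (S.cat e' = false → ∀ γ ∈ (p e').side, ∃ _ : γ < e', S.lab e' ≤ S.lab γ ∧
      S.Vd (fun c => CondB γ c) γ)
termination_by wellFounded_lt.wrap e
decreasing_by
  all_goals first
    | assumption
    | exact lt_trans (by assumption) (by assumption : e' < e)

/-- a valid catcher -/
def Val (e : Ω) : Prop := S.Vd (S.CondB e) e

/-- `ν` is a name of a real for the conditions below `e` -/
def Nme (e : Ω) (ν : Ω) : Prop := S.IsName (S.CondB e) ν

/-- conditions -/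
def Cond (p : Cd Ω) : Prop :=
  S.Le p 0 ∧ ∀ e, p e ≠ 0 →
    (S.cat e = true → S.Val e ∧ ∀ ν ∈ (p e).side, S.Nme e ν) ∧
    (S.cat e = false → ∀ γ ∈ (p e).side, γ < e ∧ S.lab e ≤ S.lab γ ∧ S.Val γ)

end Sys

end Pool.Agent.Helper60.MA
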