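import Pool.Agent.Helper60.MA.Ord

/-!
# Hulls: closed sets of coordinates and names; restriction of a condition to a hull
-/

set_option linter.unusedSectionVars false
set_option linter.unusedVariables false

namespace Pool.Agent.Helper60.MA

variable {Ω L : Type} [LinearOrder Ω] [LinearOrder L]

/-- a set of coordinates and a set of codes of names -/
structure Hull (Ω : Type) : Type where
  /-- the coordinates -/
  co : Set Ω
  /-- the names -/
  na : Set Ω

namespace Sys

variable (S : Sys Ω L)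

/-- the condition `p` lives in the hull -/
def InH (H : Hull Ω) (p : Cd Ω) : Prop :=
  ∀ e, p e ≠ 0 → e ∈ H.co ∧ (S.cat e = true → ∀ ν ∈ (p e).side, ν ∈ H.na) ∧
    (S.cat e = false → ∀ γ ∈ (p e).side, γ ∈ H.co)

/-- closed hulls -/
structure Closed (H : Hull Ω) : Prop where
  nam : ∀ e ∈ H.co, S.cat e = true → S.nam e ∈ H.na
  dec : ∀ ν, ν ∈ H.na ↔ ∀ k n, S.InH H (S.dec ν k n).1

open Classical in
/-- the restriction of a condition to a hull -/
noncomputable def res (H : Hull Ω) (p : Cd Ω) : Cd Ω :=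
  Finsupp.ofSupportFinite (fun e => if e ∈ H.co then
      ⟨(p e).stem, (p e).side.filter fun ν => (S.cat e = true → ν ∈ H.na) ∧
        (S.cat e = false → ν ∈ H.co)⟩ else 0)
    (p.support.finite_toSet.subset (by
      intro e he
      simp only [Function.mem_support, ne_eq] at he
      rw [Finset.mem_coe, Finsupp.mem_support_iff]
      intro h
      apply he
      split_ifs
      · rw [h]; rfl
      · rfl))

variable {S} {H : Hull Ω}

open Classical in
theorem res_of_notMem {e : Ω} (he : e ∉ H.co) (p : Cd Ω) : S.res H p e = 0 := by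
  show (if e ∈ H.co then _ else _) = _
  rw [if_neg he]

open Classical in
theorem res_stem {e : Ω} (he : e ∈ H.co) (p : Cd Ω) : (S.res H p e).stem = (p e).stem := by
  show (if e ∈ H.co then (⟨(p e).stem, _⟩ : Ent Ω) else 0).stem = _
  rw [if_pos he]

theorem res_word {e : Ω} (he : e ∈ H.co) (p : Cd Ω) : (S.res H p e).word = (p e).word := by
  rw [Ent.word, Ent.word, res_stem he]

theorem mem_res_side {e : Ω} (he : e ∈ H.co) {p : Cd Ω} {ν : Ω} : ν ∈ (S.res H p e).side ↔
    ν ∈ (p e).side ∧ (S.cat e = true → ν ∈ H.na) ∧ (S.cat e = false → ν ∈ H.co) := by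
  classical
  have h : (S.res H p e).side = (p e).side.filter fun ν => (S.cat e = true → ν ∈ H.na) ∧
      (S.cat e = false → ν ∈ H.co) := by
    show (if e ∈ H.co then (⟨(p e).stem, _⟩ : Ent Ω) else 0).side = _
    rw [if_pos he]
  rw [h, Finset.mem_filter]

theorem res_side_subset (e : Ω) (p : Cd Ω) : (S.res H p e).side ⊆ (p e).side := by
  by_cases he : e ∈ H.co
  · intro ν hν
    exact ((mem_res_side he).1 hν).1
  · rw [res_of_notMem he]
    exact Finset.empty_subset _

theorem res_ne_zero {e : Ω} {p : Cd Ω} (h : S.res H p e ≠ 0) : e ∈ H.co ∧ p e ≠ 0 := by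
  have he : e ∈ H.co := by
    by_contra he
    exact h (res_of_notMem he p)
  refine ⟨he, fun hp => h ?_⟩
  have h1 : (S.res H p e).stem = [] := by rw [res_stem he, hp]; rfl
  have h2 : (S.res H p e).side = ∅ := by
    rw [← Finset.subset_empty]
    have := res_side_subset (S := S) (H := H) e p
    rwa [hp] at this
  exact Ent.ext h1 h2

theorem res_inH (p : Cd Ω) : S.InH H (S.res H p) := by
  intro e he
  obtain ⟨h1, -⟩ := res_ne_zero he
  refine ⟨h1, fun hc ν hν => ?_, fun hc γ hγ => ?_⟩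
  · exact ((mem_res_side h1).1 hν).2.1 hc
  · exact ((mem_res_side h1).1 hγ).2.2 hc

theorem inH_zero : S.InH H 0 := fun e he => (he rfl).elim

theorem InH.zero {p : Cd Ω} (h : S.InH H p) {e : Ω} (he : e ∉ H.co) : p e = 0 := by
  by_contra hcon
  exact he (h e hcon).1

theorem InH.cut [WellFoundedLT Ω] {p : Cd Ω} (h : S.InH H p) (e : Ω) : S.InH H (cut e p) := by
  intro d hd
  by_cases hde : d < e
  · rw [cut_lt hde] at hd ⊢
    exact h d hd
  · exact (hd (cut_ge (not_lt.1 hde) p)).elim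

variable [WellFoundedLT Ω]

theorem leB_res (hH : S.Closed H) {e : Ω} : ∀ {r t : Cd Ω}, S.InH H t → S.LeB e r t →
    S.LeB e (S.res H r) t := by
  induction e using WellFoundedLT.induction with
  | _ e ih =>
    intro r t ht h
    rw [LeB_iff] at h ⊢
    intro d hd
    by_cases hdH : d ∈ H.co
    · obtain ⟨h1, bs, h2, h3⟩ := h d hd
      refine ⟨?_, bs, by rw [res_stem hdH, h2], ?_⟩
      · intro ν hν
        have ht0 : t d ≠ 0 := by
          intro h0
          rw [h0] at hν
          exact absurd hν (Finset.notMem_empty _)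
        exact (mem_res_side hdH).2 ⟨h1 hν, fun hc => (ht d ht0).2.1 hc ν hν,
          fun hc => (ht d ht0).2.2 hc ν hν⟩
      · intro a β c hbs
        have h4 := h3 a β c hbs
        have hsay : ∀ ν ∈ H.na, ∀ k i, S.Says (S.LeB d r) ν k i →
            S.Says (S.LeB d (S.res H r)) ν k i := by
          rintro ν hν k i ⟨n, hn1, hn2⟩
          exact ⟨n, hn1, ih d hd ((hH.dec ν).1 hν k n) hn2⟩
        by_cases hc : S.cat d = true
        · simp only [hc, if_true] at h4 ⊢
          have hna := hH.nam d hdH hc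
          obtain ⟨⟨u, v, e1, e2, e3, e4, e5, e6⟩, h5⟩ := h4
          refine ⟨⟨u, v, e1, e2, e3, hsay _ hna _ _ e4, hsay _ hna _ _ e5, e6⟩, ?_⟩
          intro x hx
          have ht0 : t d ≠ 0 := by
            intro h0
            rw [h0] at hx
            exact absurd hx (Finset.notMem_empty _)
          obtain ⟨u, v, e1, e2, e3, e4, e5, e6⟩ := h5 x hx
          refine ⟨u, v, e1, e2, e3, hsay _ hna _ _ e4, hsay _ hna _ _ e5, fun k hk1 hk2 => ?_⟩
          obtain ⟨i, t', e7, e8⟩ := e6 k hk1 hk2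
          exact ⟨i, t', e7, hsay _ ((ht d ht0).2.1 hc x hx) _ _ e8⟩
        · simp only [hc] at h4 ⊢
          intro k t' hk γ hγ hγd
          have ht0 : t d ≠ 0 := by
            intro h0
            rw [h0] at hγ
            exact absurd hγ (Finset.notMem_empty _)
          obtain ⟨i, hi⟩ := h4 k t' hk γ hγ hγd
          exact ⟨i, by rw [res_word ((ht d ht0).2.2 (by simpa using hc) γ hγ)]; exact hi⟩
    · rw [ht.zero hdH, res_of_notMem hdH]
      exact Loc.refl _ _ _ _

theorem res_le (hH : S.Closed H) {r t : Cd Ω} (ht : S.InH H t) (h : S.Le r t) :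
    S.Le (S.res H r) t := by
  intro e
  have h1 : S.LeB e (S.res H r) t := leB_res hH ht (h.leB e)
  by_cases hdH : e ∈ H.co
  · obtain ⟨h1, bs, h2, h3⟩ := h e
    refine ⟨?_, bs, by rw [res_stem hdH, h2], ?_⟩
    · intro ν hν
      have ht0 : t e ≠ 0 := by
        intro h0
        rw [h0] at hν
        exact absurd hν (Finset.notMem_empty _)
      exact (mem_res_side hdH).2 ⟨h1 hν, fun hc => (ht e ht0).2.1 hc ν hν,
        fun hc => (ht e ht0).2.2 hc ν hν⟩
    · intro a β c hbs
      have h4 := h3 a β c hbs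
      have hsay : ∀ ν ∈ H.na, ∀ k i, S.Says (S.LeB e r) ν k i →
          S.Says (S.LeB e (S.res H r)) ν k i := by
        rintro ν hν k i ⟨n, hn1, hn2⟩
        exact ⟨n, hn1, leB_res hH ((hH.dec ν).1 hν k n) hn2⟩
      by_cases hc : S.cat e = true
      · simp only [hc, if_true] at h4 ⊢
        have hna := hH.nam e hdH hc
        obtain ⟨⟨u, v, e1, e2, e3, e4, e5, e6⟩, h5⟩ := h4
        refine ⟨⟨u, v, e1, e2, e3, hsay _ hna _ _ e4, hsay _ hna _ _ e5, e6⟩, ?_⟩
        intro x hx
        have ht0 : t e ≠ 0 := by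
          intro h0
          rw [h0] at hx
          exact absurd hx (Finset.notMem_empty _)
        obtain ⟨u, v, e1, e2, e3, e4, e5, e6⟩ := h5 x hx
        refine ⟨u, v, e1, e2, e3, hsay _ hna _ _ e4, hsay _ hna _ _ e5, fun k hk1 hk2 => ?_⟩
        obtain ⟨i, t', e7, e8⟩ := e6 k hk1 hk2
        exact ⟨i, t', e7, hsay _ ((ht e ht0).2.1 hc x hx) _ _ e8⟩
      · simp only [hc] at h4 ⊢
        intro k t' hk γ hγ hγd
        have ht0 : t e ≠ 0 := by
          intro h0
          rw [h0] at hγ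
          exact absurd hγ (Finset.notMem_empty _)
        obtain ⟨i, hi⟩ := h4 k t' hk γ hγ hγd
        exact ⟨i, by rw [res_word ((ht e ht0).2.2 (by simpa using hc) γ hγ)]; exact hi⟩
  · rw [ht.zero hdH, res_of_notMem hdH]
    exact Loc.refl _ _ _ _

theorem le_res {r : Cd Ω} (hr : S.Le r 0) : S.Le r (S.res H r) := by
  intro e
  by_cases he : e ∈ H.co
  · exact Loc.of_side (res_stem he r).symm (res_side_subset e r)
  · rw [res_of_notMem he]
    exact hr e

theorem EntOk.mono {e : Ω} {x y : Ent Ω} (h : S.EntOk e x) (hs : y.side ⊆ x.side) :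
    S.EntOk e y :=
  ⟨fun hc => ⟨(h.1 hc).1, fun ν hν => (h.1 hc).2 ν (hs hν)⟩, fun hc γ hγ => h.2 hc γ (hs hγ)⟩

theorem Cond.res (hH : S.Closed H) {r : Cd Ω} (hr : S.Cond r) : S.Cond (S.res H r) := by
  refine ⟨res_le hH inH_zero hr.1, fun e he => ?_⟩
  obtain ⟨h1, h2⟩ := res_ne_zero he
  exact EntOk.mono (hr.entOk h2) (res_side_subset e r)

theorem CondB.res (hH : S.Closed H) {e : Ω} {r : Cd Ω} (hr : S.CondB e r) :
    S.CondB e (S.res H r) :=
  CondB_iff'.2 ⟨hr.cond.res hH, fun _ hd => hr.lt (res_ne_zero hd).2⟩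

/-- every countable set is contained in a countable closed hull -/
theorem exists_hull (S : Sys Ω L) {C N : Set Ω} (hC : C.Countable) (hN : N.Countable) :
    ∃ H : Hull Ω, S.Closed H ∧ C ⊆ H.co ∧ N ⊆ H.na ∧ H.co.Countable := by
  classical
  -- the objects from which an object depends
  let dep : Ω ⊕ Ω → Set (Ω ⊕ Ω) := fun a =>
    match a with
    | .inl e => {.inr (S.nam e)}
    | .inr ν => ⋃ k : ℕ, ⋃ n : ℕ, ⋃ d ∈ (S.dec ν k n).1.support,
        ({.inl d} ∪ (Sum.inl '' (((S.dec ν k n).1 d).side : Set Ω)) ∪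
          (Sum.inr '' (((S.dec ν k n).1 d).side : Set Ω)))
  have hdep : ∀ a, (dep a).Countable := by
    rintro (e | ν)
    · exact Set.countable_singleton _
    · refine Set.countable_iUnion fun k => Set.countable_iUnion fun n =>
        Set.Countable.biUnion (Finset.countable_toSet _) fun d _ => ?_
      exact ((Set.countable_singleton _).union ((Finset.countable_toSet _).image _)).union
        ((Finset.countable_toSet _).image _)
  let st : ℕ → Set (Ω ⊕ Ω) := fun n => Nat.rec ((Sum.inl '' C) ∪ (Sum.inr '' N))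
    (fun _ s => s ∪ ⋃ a ∈ s, dep a) n
  have hst : ∀ n, (st n).Countable := by
    intro n
    induction n with
    | zero => exact (hC.image _).union (hN.image _)
    | succ n ih => exact ih.union (ih.biUnion fun a _ => hdep a)
  let T : Set (Ω ⊕ Ω) := ⋃ n, st n
  have hT : T.Countable := Set.countable_iUnion hst
  have hTdep : ∀ a ∈ T, dep a ⊆ T := by
    intro a ha b hb
    obtain ⟨n, hn⟩ := Set.mem_iUnion.1 ha
    refine Set.mem_iUnion.2 ⟨n + 1, Or.inr ?_⟩
    exact Set.mem_biUnion hn hb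
  -- the largest set of names for the coordinates in `T`
  let co : Set Ω := Sum.inl ⁻¹' T
  let Φ : Set Ω →o Set Ω := ⟨fun X => {ν | ∀ k n, S.InH ⟨co, X⟩ (S.dec ν k n).1}, by
    intro X Y hXY ν hν k n d hd
    obtain ⟨h1, h2, h3⟩ := hν k n d hd
    exact ⟨h1, fun hc ν hν => hXY (h2 hc ν hν), h3⟩⟩
  let H : Hull Ω := ⟨co, OrderHom.gfp Φ⟩
  have hfix : Φ H.na = H.na := Φ.map_gfp
  have hsub : Sum.inr ⁻¹' T ⊆ H.na := by
    refine OrderHom.le_gfp _ ?_
    intro ν hν k n d hd
    have hd' : d ∈ (S.dec ν k n).1.support := Finsupp.mem_support_iff.2 hd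
    have key : ({.inl d} ∪ (Sum.inl '' (((S.dec ν k n).1 d).side : Set Ω)) ∪
          (Sum.inr '' (((S.dec ν k n).1 d).side : Set Ω)) : Set (Ω ⊕ Ω)) ⊆ T := by
      refine Set.Subset.trans ?_ (hTdep _ hν)
      intro b hb
      exact Set.mem_iUnion.2 ⟨k, Set.mem_iUnion.2 ⟨n, Set.mem_biUnion hd' hb⟩⟩
    refine ⟨key (Or.inl (Or.inl rfl)), fun _ ν' hν' => key (Or.inr ⟨ν', hν', rfl⟩),
      fun _ γ hγ => key (Or.inl (Or.inr ⟨γ, hγ, rfl⟩))⟩
  refine ⟨H, ⟨?_, ?_⟩, ?_, ?_, ?_⟩
  · intro e he _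
    exact hsub (hTdep _ he rfl)
  · intro ν
    constructor
    · intro hν
      rw [← hfix] at hν
      exact hν
    · intro hν
      rw [← hfix]
      exact hν
  · intro c hc
    exact Set.mem_iUnion.2 ⟨0, Or.inl ⟨c, hc, rfl⟩⟩
  · intro c hc
    exact hsub (Set.mem_iUnion.2 ⟨0, Or.inr ⟨c, hc, rfl⟩⟩)
  · exact hT.preimage Sum.inl_injective

end Sys

end Pool.Agent.Helper60.MA
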