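import Pool.Agent.Helper60.MA.Ok
import Pool.Agent.Helper38.MA.RG
import Pool.Agent.Helper56.MA.NM
import Pool.Agent.Helper68.MA.MX0
import Pool.Agent.Helper69.MA.MG

/-!
# The main theorem
-/

set_option linter.unusedSectionVars false
set_option linter.unusedVariables false

namespace Pool.Agent.Helper60.MA

open Pool.Agent.Helper96.Fc Cardinal Ordinal
open Pool.Agent.Helper89.FV (nat om Tab)

theorem pos_ccc (S : Sys Om La) (F : Set (Pos S))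
    (hF : ∀ p ∈ F, ∀ q ∈ F, p ≠ q → ¬ ∃ r, r ≤ p ∧ r ≤ q) : F.Countable := by
  have h1 : (Subtype.val '' F : Set (Cd Om)).Countable := by
    refine Sys.ccc (S := S) ?_ ?_
    · rintro _ ⟨p, -, rfl⟩
      exact p.2
    · rintro _ ⟨p, hp, rfl⟩ _ ⟨q, hq, rfl⟩ hpq ⟨r, hr, h2, h3⟩
      exact hF p hp q hq (fun h => hpq (by rw [h])) ⟨⟨r, hr⟩, h2, h3⟩
  exact Set.countable_of_injective_of_countable_image Subtype.val_injective.injOn h1

theorem exists_ok : ∃ (S : Sys Om La) (X : Set (Obj (Pos S))) (G : Set (Pos S)), X.Countable ∧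
    Ok S X G := by
  obtain ⟨S, hb⟩ := exists_sys
  obtain ⟨r₀, h₀⟩ := req_omega1 (pos_ccc S)
  obtain ⟨r₁, h₁⟩ := req_names S
  obtain ⟨r₂, h₂⟩ := req_gen S
  obtain ⟨r₃, h₃⟩ := req_xn S
  obtain ⟨r₄, h₄⟩ := req_pt S
  obtain ⟨r₅, h₅⟩ := req_bk S hb true
  obtain ⟨r₆, h₆⟩ := req_bk S hb false
  obtain ⟨r₇, h₇⟩ := req_lb S
  obtain ⟨r₈, h₈⟩ := req_nm S (grN S)
  obtain ⟨r₉, h₉⟩ := req_nm S (gkN S)
  obtain ⟨s₀, k₀⟩ := req_lnm S (XN S)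
  obtain ⟨s₁, k₁⟩ := req_const S (FN S)
  obtain ⟨s₂, k₂⟩ := req_const S (fN S)
  obtain ⟨s₃, k₃⟩ := req_back S
  obtain ⟨s₄, k₄⟩ := req_backF S
  obtain ⟨𝓡₀, h𝓡₀, hcode⟩ := exists_code
  obtain ⟨𝓡, h𝓡, hc⟩ := Pool.Agent.Helper68.MA.meagerAdd_of_caught_aux h𝓡₀ hcode
  obtain ⟨𝓡', h𝓡', hn⟩ := Pool.Agent.Helper68.MA.not_meagerAdd_of_mtch_aux h𝓡₀ hcode
  choose t ht using fun R : (𝓡 ∪ 𝓡' : Set (ℕ → ℕ → ℕ → Prop)) => req_tab (P := Pos S) R.1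
  have hcount : Countable (𝓡 ∪ 𝓡' : Set (ℕ → ℕ → ℕ → Prop)) := (h𝓡.union h𝓡').to_subtype
  let r : ℕ ⊕ (𝓡 ∪ 𝓡' : Set (ℕ → ℕ → ℕ → Prop)) → Req (Pos S) := fun i =>
    match i with
    | .inl 0 => r₀
    | .inl 1 => r₁
    | .inl 2 => r₂
    | .inl 3 => r₃
    | .inl 4 => r₄
    | .inl 5 => r₅
    | .inl 6 => r₆
    | .inl 7 => r₇
    | .inl 8 => r₈
    | .inl 9 => r₉
    | .inl 10 => s₀
    | .inl 11 => s₁
    | .inl 12 => s₂
    | .inl 13 => s₃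
    | .inl _ => s₄
    | .inr R => t R
  obtain ⟨X, G, hX, -, hbas, hclo, hr⟩ := exists_sat r ⊤
  have hN := Mod.isZFC hbas hclo
  have htab : ∀ R ∈ 𝓡 ∪ 𝓡', Tab (Mod X G) R := fun R hR =>
    ht ⟨R, hR⟩ X G hbas hclo (hr (.inr ⟨R, hR⟩))
  refine ⟨S, X, G, hX, ?_⟩
  exact
    { bas := hbas
      clo := hclo
      gen := h₂ X G hbas hclo (hr (.inl 2))
      nms := h₁ X G hbas hclo (hr (.inl 1))
      w1X := (h₀ X G hbas hclo (hr (.inl 0))).1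
      w1 := (h₀ X G hbas hclo (hr (.inl 0))).2
      xn := h₃ X G (hr (.inl 3))
      pt := h₄ X G (hr (.inl 4))
      bk := fun c => by
        rcases c with _ | _
        · exact h₆ X G (hr (.inl 6))
        · exact h₅ X G (hr (.inl 5))
      lb := h₇ X G (hr (.inl 7))
      grX := h₈ X G (hr (.inl 8))
      gkX := h₉ X G (hr (.inl 9))
      xX := k₀ X G (hr (.inl 10))
      FX := k₁ X G (hr (.inl 11))
      fX := k₂ X G (hr (.inl 12))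
      back := k₃ X G (hr (.inl 13))
      backF := k₄ X G (hr (.inl 14))
      caught := hc _ hN fun R hR => htab R (Or.inl hR)
      notma := hn _ hN fun R hR => htab R (Or.inr hR) }

/-- **Main theorem.** -/
theorem main : ∃ (N : Set ZFSet.{0}) (W : ZFSet.{0}), N.Countable ∧ IsZFC N ∧
    NextCard N om W ∧ (∀ X, Pts N X → Onto N W X → MeagerAdd N X) ∧
      ∃ F ∈ N, Onto N W F ∧ (∀ X ∈ F, MeagerAdd N X) ∧ Pts N F.sUnion ∧
        ¬ MeagerAdd N F.sUnion := by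
  obtain ⟨S, X, G, hX, h⟩ := exists_ok
  refine ⟨Mod X G, val X G (ordN (Pos S) (Cardinal.aleph 1).ord), Mod_countable hX, h.zfc, h.w1,
    fun X' hX' ho => h.small hX' ho, val X G (FN S), mem_Mod h.FX, h.onto_FN, ?_, h.pts_union,
    h.not_ma⟩
  intro z hz
  obtain ⟨l, hl, rfl⟩ := h.mem_FN.1 hz
  exact h.ma_XN hl

end Pool.Agent.Helper60.MA
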