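import Pool.Agent.Helper60.MA.Ops
import Pool.Agent.Helper42.MA.OM
import Pool.Agent.Helper56.MA.GC
import Pool.Agent.Helper68.MA.MC

/-!
# The model
-/

set_option linter.unusedSectionVars false
set_option linter.unusedVariables false

namespace Pool.Agent.Helper60.MA

open Pool.Agent.Helper96.Fc Cardinal Ordinal
open Pool.Agent.Helper89.FV (nat om Tab)
open Pool.Agent.Helper68.MA (st_inj)

/-- what is needed about the pair `(X, G)` -/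
structure Ok (S : Sys Om La) (X : Set (Obj (Pos S))) (G : Set (Pos S)) : Prop where
  bas : Basic X G
  clo : Clos X
  gen : Gen S (EX S X) (raw G)
  nms : ∀ f ∈ Mod X G, ∃ e ∈ EX S X, ∃ ν : La → Om, (∀ z, S.Nme e (ν z)) ∧
      (∀ z, (Sum.inl (lN S z) : Obj (Pos S)) ∈ X → ν z ∈ EX S X) ∧
      ∀ z, (Sum.inl (lN S z) : Obj (Pos S)) ∈ X → ∀ x : ℕ → Bool,
        ZFSet.pair (val X G (lN S z)) (st x) ∈ f →
        (∀ y, ZFSet.pair (val X G (lN S z)) y ∈ f → y = st x) → rl S (raw G) (ν z) = x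
  w1X : (Sum.inl (ordN (Pos S) (Cardinal.aleph 1).ord) : Obj (Pos S)) ∈ X
  w1 : NextCard (Mod X G) om (val X G (ordN (Pos S) (Cardinal.aleph 1).ord))
  xn : ∀ α ∈ EX S X, S.cat α = false →
    ∃ ν ∈ EX S X, (∀ e, α < e → S.Nme e ν) ∧ ∀ k n, ∃ t, ((S.dec ν k n).1 α).word[k]? =
      some ((S.dec ν k n).2, t)
  pt : ∀ e ∈ EX S X, ∀ J ∈ EX S X, S.Nme e J →
    ∃ J' ∈ EX S X, S.Nme e J' ∧ S.IsPart (S.CondB e) J' ∧ ∀ G : Set (Cd Om),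
      (∀ p ∈ G, S.Cond p) → (∀ p ∈ G, ∀ q, S.Cond q → S.Le p q → q ∈ G) →
      (∀ p ∈ G, ∀ q ∈ G, ∃ r ∈ G, S.Le r p ∧ S.Le r q) →
      (∀ k, ∃ n, (S.dec J k n).1 ∈ G) → (∀ k, ∃ n, (S.dec J' k n).1 ∈ G) →
      Inf (rl S G J) → rl S G J' = rl S G J
  bk : ∀ c : Bool, ∀ e ∈ EX S X, ∀ J ∈ EX S X, ∀ l : La,
      (Sum.inl (lN S l) : Obj (Pos S)) ∈ X →
      ∃ e' ∈ EX S X, e < e' ∧ S.cat e' = c ∧ S.lab e' = l ∧ S.nam e' = J
  lb : ∀ J ∈ EX S X, ∀ h ∈ EX S X, ∃ l : La,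
    (Sum.inl (lN S l) : Obj (Pos S)) ∈ X ∧ ∃ H : Hull Om, S.Closed H ∧ J ∈ H.na ∧ h ∈ H.na ∧
      ∀ e ∈ H.co, S.cat e = true → S.lab e < l
  grX : ∀ e ∈ EX S X, (Sum.inl (grN S e) : Obj (Pos S)) ∈ X
  gkX : ∀ e ∈ EX S X, (Sum.inl (gkN S e) : Obj (Pos S)) ∈ X
  xX : ∀ l : La, (Sum.inl (lN S l) : Obj (Pos S)) ∈ X → (Sum.inl (XN S l) : Obj (Pos S)) ∈ X
  FX : (Sum.inl (FN S) : Obj (Pos S)) ∈ X
  fX : (Sum.inl (fN S) : Obj (Pos S)) ∈ X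
  back : ∀ l : La, (Sum.inl (lN S l) : Obj (Pos S)) ∈ X → ∀ α, S.cat α = false →
    S.lab α ≤ l → (Sum.inl (grN S α) : Obj (Pos S)) ∈ X →
      ∃ β ∈ EX S X, S.cat β = false ∧ S.lab β ≤ l ∧ grN S β = grN S α
  backF : ∀ l : La, (Sum.inl (XN S l) : Obj (Pos S)) ∈ X →
    ∃ b : La, (Sum.inl (lN S b) : Obj (Pos S)) ∈ X ∧ XN S b = XN S l
  caught : ∀ X', Pts (Mod X G) X' →
      (∀ I, st I ∈ Mod X G → Inf I → ∃ K y, st K ∈ Mod X G ∧ st y ∈ Mod X G ∧ Inf K ∧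
        ∀ x, st x ∈ X' → Caught I K y x) → MeagerAdd (Mod X G) X'
  notma : ∀ U, Pts (Mod X G) U →
      (∀ J h, st J ∈ Mod X G → st h ∈ Mod X G → Inf J → ∃ x, st x ∈ U ∧ Mtch J h x) →
      ¬ MeagerAdd (Mod X G) U

namespace Ok

variable {S : Sys Om La} {X : Set (Obj (Pos S))} {G : Set (Pos S)}

theorem zfc (h : Ok S X G) : IsZFC (Mod X G) := Mod.isZFC h.bas h.clo

theorem mem_W (h : Ok S X G) {z : ZFSet.{0}} :
    z ∈ val X G (ordN (Pos S) (Cardinal.aleph 1).ord) ↔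
      ∃ l : La, (Sum.inl (lN S l) : Obj (Pos S)) ∈ X ∧ val X G (lN S l) = z := by
  rw [val_ordN_mem h.bas.filt]
  constructor
  · rintro ⟨b, hb, h1, h2⟩
    refine ⟨ToType.mk ⟨b, hb⟩, ?_, ?_⟩
    · simpa [lN] using h1
    · simpa [lN] using h2
  · rintro ⟨l, h1, h2⟩
    exact ⟨(ToType.toOrd l).1, (ToType.toOrd l).2, h1, h2⟩

theorem exists_label (h : Ok S X G) : ∃ l : La, (Sum.inl (lN S l) : Obj (Pos S)) ∈ X := by
  have h0 : (0 : Ordinal.{0}) < (Cardinal.aleph 1).ord := by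
    rw [Cardinal.lt_ord]
    simp
  refine ⟨ToType.mk ⟨0, h0⟩, ?_⟩
  have := h.clo.zero
  simpa [lN] using this

theorem meets (h : Ok S X G) {e ν : Om} (hν : ν ∈ EX S X) (hn : S.Nme e ν) (k : ℕ) :
    ∃ n, (S.dec ν k n).1 ∈ raw G := h.gen.name e ν hν hn k

theorem code (h : Ok S X G) {x : ℕ → Bool} (hx : st x ∈ Mod X G) :
    ∃ e ∈ EX S X, ∃ ν ∈ EX S X, S.Nme e ν ∧ rl S (raw G) ν = x := by
  obtain ⟨l, hl⟩ := h.exists_label
  have hp : ZFSet.pair (val X G (lN S l)) (st x) ∈ Mod X G :=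
    (Pool.Agent.Helper89.FV.pair_mem_iff h.zfc).2 ⟨mem_Mod hl, hx⟩
  obtain ⟨e, he, ν, h1, h2, h3⟩ := h.nms _ (Pool.Agent.Helper89.FV.singleton_mem h.zfc hp)
  refine ⟨e, he, ν l, h2 l hl, h1 l, h3 l hl x (ZFSet.mem_singleton.2 rfl) ?_⟩
  intro y hy
  exact (ZFSet.pair_inj.1 (ZFSet.mem_singleton.1 hy)).2

theorem code_part (h : Ok S X G) {x : ℕ → Bool} (hx : st x ∈ Mod X G) (hi : Inf x) :
    ∃ e ∈ EX S X, ∃ ν ∈ EX S X, S.Nme e ν ∧ S.IsPart (S.CondB e) ν ∧ rl S (raw G) ν = x := by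
  obtain ⟨e, he, ν, hν, h1, h2⟩ := h.code hx
  obtain ⟨ν', hν', h3, h4, h5⟩ := h.pt e he ν hν h1
  refine ⟨e, he, ν', hν', h3, h4, ?_⟩
  rw [h5 (raw G) h.gen.cond h.gen.up h.gen.dir (h.meets hν h1) (h.meets hν' h3) (by rw [h2]; exact hi),
    h2]

/-- a catcher for a given partition above a given coordinate with a given label -/
theorem catcher (h : Ok S X G) {I : ℕ → Bool} (hI : st I ∈ Mod X G) (hi : Inf I) {e₀ : Om}
    (he₀ : e₀ ∈ EX S X) {l : La} (hl : (Sum.inl (lN S l) : Obj (Pos S)) ∈ X) :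
    ∃ e ∈ EX S X, e₀ < e ∧ S.Val e ∧ S.lab e = l ∧ rl S (raw G) (S.nam e) = I := by
  obtain ⟨e₁, he₁, ν, hν, h1, h2, h3⟩ := h.code_part hI hi
  have hm : max e₀ e₁ ∈ EX S X := by
    rcases max_choice e₀ e₁ with h | h <;> rw [h] <;> assumption
  obtain ⟨e, he, h4, h5, h6, h7⟩ := h.bk true _ hm ν hν l hl
  have h8 : e₁ ≤ e := (le_max_right _ _).trans h4.le
  refine ⟨e, he, (le_max_left _ _).trans_lt h4, ⟨h5, ?_, ?_⟩, h6, by rw [h7]; exact h3⟩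
  · rw [h7]; exact Sys.Nme.mono h8 h1
  · rw [h7]; exact Sys.isPart_mono h8 h1 h2

theorem val_gr (h : Ok S X G) (e : Om) : val X G (grN S e) = st (gr (raw G) e) := by
  classical
  rw [grN, val_setN h.bas h.clo]
  congr 1
  funext k
  rw [gr]
  congr 1
  rw [eq_iff_iff]
  constructor
  · rintro ⟨p, hp, t, ht⟩
    exact ⟨p.1, ⟨p.2, hp⟩, t, ht⟩
  · rintro ⟨p, ⟨hc, hp⟩, t, ht⟩
    exact ⟨⟨p, hc⟩, hp, t, ht⟩

theorem val_gk (h : Ok S X G) (e : Om) : val X G (gkN S e) = st (gk (raw G) e) := by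
  classical
  rw [gkN, val_setN h.bas h.clo]
  congr 1
  funext k
  rw [gk]
  congr 1
  rw [eq_iff_iff]
  constructor
  · rintro ⟨p, hp, t, ht⟩
    exact ⟨p.1, ⟨p.2, hp⟩, t, ht⟩
  · rintro ⟨p, ⟨hc, hp⟩, t, ht⟩
    exact ⟨⟨p, hc⟩, hp, t, ht⟩

theorem gr_mem (h : Ok S X G) {e : Om} (he : e ∈ EX S X) : st (gr (raw G) e) ∈ Mod X G := by
  rw [← h.val_gr]
  exact mem_Mod (h.grX e he)

theorem gk_mem (h : Ok S X G) {e : Om} (he : e ∈ EX S X) : st (gk (raw G) e) ∈ Mod X G := by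
  rw [← h.val_gk]
  exact mem_Mod (h.gkX e he)

/-- small sets are meager-additive -/
theorem small (h : Ok S X G) {X' : ZFSet.{0}} (hX : Pts (Mod X G) X')
    (ho : Onto (Mod X G) (val X G (ordN (Pos S) (Cardinal.aleph 1).ord)) X') :
    MeagerAdd (Mod X G) X' := by
  obtain ⟨f, hf, hfun, hon⟩ := ho
  obtain ⟨e₀, he₀, ν, h1, h2, h3⟩ := h.nms f hf
  obtain ⟨l, hl⟩ := h.exists_label
  refine h.caught X' hX fun I hI hi => ?_
  obtain ⟨e, he, h4, h5, h6, h7⟩ := h.catcher hI hi he₀ hl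
  refine ⟨gk (raw G) e, gr (raw G) e, h.gk_mem he, h.gr_mem he, h.gen.inf_gk he h5, ?_⟩
  intro x hx
  obtain ⟨w, hw, hwf⟩ := hon _ hx
  obtain ⟨z, hz, rfl⟩ := h.mem_W.1 hw
  have h8 : rl S (raw G) (ν z) = x := h3 z hz x hwf fun y hy => hfun _ _ _ hy hwf
  have h9 := h.gen.caught_name he h5 (h2 z hz) (Sys.Nme.mono h4.le (h1 z))
  rwa [h7, h8] at h9

theorem mem_XN (h : Ok S X G) {l : La} (hl : (Sum.inl (lN S l) : Obj (Pos S)) ∈ X)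
    {z : ZFSet.{0}} : z ∈ val X G (XN S l) ↔
      ∃ α ∈ EX S X, S.cat α = false ∧ S.lab α ≤ l ∧ z = st (gr (raw G) α) := by
  rw [mem_val]
  constructor
  · rintro ⟨⟨α, h1, h2⟩, -, h3, rfl⟩
    obtain ⟨β, h4, h5, h6, h7⟩ := h.back l hl α h1 h2 h3
    refine ⟨β, h4, h5, h6, ?_⟩
    rw [← h.val_gr, h7]
    rfl
  · rintro ⟨α, h1, h2, h3, rfl⟩
    refine ⟨⟨α, h2, h3⟩, h.bas.filt.top, h.grX α h1, ?_⟩
    exact h.val_gr α

theorem pts_XN (h : Ok S X G) {l : La} (hl : (Sum.inl (lN S l) : Obj (Pos S)) ∈ X) :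
    Pts (Mod X G) (val X G (XN S l)) := by
  refine ⟨mem_Mod (h.xX l hl), fun z hz => ?_⟩
  obtain ⟨α, -, -, -, h1⟩ := (h.mem_XN hl).1 hz
  exact ⟨_, h1⟩

/-- the sets `X_l` are meager-additive -/
theorem ma_XN (h : Ok S X G) {l : La} (hl : (Sum.inl (lN S l) : Obj (Pos S)) ∈ X) :
    MeagerAdd (Mod X G) (val X G (XN S l)) := by
  refine h.caught _ (h.pts_XN hl) fun I hI hi => ?_
  obtain ⟨e₀, he₀, -⟩ := h.code hI
  obtain ⟨e, he, h4, h5, h6, h7⟩ := h.catcher hI hi he₀ hl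
  refine ⟨gk (raw G) e, gr (raw G) e, h.gk_mem he, h.gr_mem he, h.gen.inf_gk he h5, ?_⟩
  intro x hx
  obtain ⟨α, hα, hc, hla, hxα⟩ := (h.mem_XN hl).1 hx
  obtain rfl := st_inj hxα
  rcases lt_trichotomy e α with hlt | rfl | hlt
  · have h9 := h.gen.caught_late he h5 hα hc hlt (by rw [h6]; exact hla)
    rwa [h7] at h9
  · exact absurd h5.cat (by rw [hc]; simp)
  · obtain ⟨ν, hν, h8, h9⟩ := h.xn α hα hc
    have h10 := h.gen.caught_name he h5 hν (h8 e hlt)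
    rw [h7] at h10
    rwa [h.gen.gr_eq h9 (h.meets hν (h8 e hlt))]

theorem mem_FN (h : Ok S X G) {z : ZFSet.{0}} : z ∈ val X G (FN S) ↔
    ∃ l : La, (Sum.inl (lN S l) : Obj (Pos S)) ∈ X ∧ z = val X G (XN S l) := by
  rw [mem_val]
  constructor
  · rintro ⟨l, -, h3, rfl⟩
    obtain ⟨b, h4, h5⟩ := h.backF l h3
    exact ⟨b, h4, by rw [h5]; rfl⟩
  · rintro ⟨l, h1, rfl⟩
    exact ⟨l, h.bas.filt.top, h.xX l h1, rfl⟩

theorem onto_FN (h : Ok S X G) :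
    Onto (Mod X G) (val X G (ordN (Pos S) (Cardinal.aleph 1).ord)) (val X G (FN S)) := by
  have key : ∀ a b, ZFSet.pair a b ∈ val X G (fN S) → ∃ l : La,
      (Sum.inl (lN S l) : Obj (Pos S)) ∈ X ∧ a = val X G (lN S l) ∧ b = val X G (XN S l) := by
    intro a b hab
    obtain ⟨l, -, h1, h2⟩ := mem_val.1 hab
    have h3 : (Sum.inl (pairN (lN S l) (XN S l)) : Obj (Pos S)) ∈ X := h1
    have h4 := h.clo.fst _ _ h3
    have h5 := h.clo.snd _ _ h3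
    have h6 : val X G (pairN (lN S l) (XN S l)) = ZFSet.pair a b := h2
    rw [val_pairN h.bas.filt h.clo h4 h5] at h6
    obtain ⟨h7, h8⟩ := ZFSet.pair_inj.1 h6
    exact ⟨l, h4, h7.symm, h8.symm⟩
  refine ⟨val X G (fN S), mem_Mod h.fX, ?_, ?_⟩
  · intro x y z hy hz
    obtain ⟨l, h1, h2, h3⟩ := key _ _ hy
    obtain ⟨l', h1', h2', h3'⟩ := key _ _ hz
    have h4 : l = l' := by
      have h5 := val_ordN_inj h.bas h1 h1' (h2.symm.trans h2')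
      exact ToType.mk.symm.injective (Subtype.ext h5)
    rw [h3, h3', h4]
  · intro y hy
    obtain ⟨l, h1, rfl⟩ := h.mem_FN.1 hy
    refine ⟨val X G (lN S l), h.mem_W.2 ⟨l, h1, rfl⟩, ?_⟩
    rw [← val_pairN h.bas.filt h.clo h1 (h.xX l h1)]
    exact mem_val.2 ⟨l, h.bas.filt.top, h.clo.pair h1 (h.xX l h1), rfl⟩

theorem sUnion_mem (h : Ok S X G) : (val X G (FN S)).sUnion ∈ Mod X G := by
  have hF : val X G (FN S) ∈ Mod X G := mem_Mod h.FX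
  obtain ⟨u, hu, h1⟩ := h.zfc.union _ hF
  have : u = (val X G (FN S)).sUnion := by
    ext z
    rw [ZFSet.mem_sUnion]
    constructor
    · intro hz
      obtain ⟨y, -, h2, h3⟩ := (h1 z (h.zfc.trans u hu z hz)).1 hz
      exact ⟨y, h2, h3⟩
    · rintro ⟨y, h2, h3⟩
      have hy := h.zfc.trans _ hF y h2
      exact (h1 z (h.zfc.trans y hy z h3)).2 ⟨y, hy, h2, h3⟩
  rwa [← this]

theorem pts_union (h : Ok S X G) : Pts (Mod X G) (val X G (FN S)).sUnion := by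
  refine ⟨h.sUnion_mem, fun z hz => ?_⟩
  obtain ⟨y, h1, h2⟩ := ZFSet.mem_sUnion.1 hz
  obtain ⟨l, hl, rfl⟩ := h.mem_FN.1 h1
  exact (h.pts_XN hl).2 z h2

/-- the union of the sets `X_l` is not meager-additive -/
theorem not_ma (h : Ok S X G) : ¬ MeagerAdd (Mod X G) (val X G (FN S)).sUnion := by
  refine h.notma _ h.pts_union fun J j hJ hj hi => ?_
  obtain ⟨e₁, he₁, ν, hν, h1, h2, h3⟩ := h.code_part hJ hi
  obtain ⟨e₂, he₂, μ, hμ, h4, h5⟩ := h.code hj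
  obtain ⟨l, hl, H, hH1, hH2, hH3, hH4⟩ := h.lb ν hν μ hμ
  have hm : max e₁ e₂ ∈ EX S X := by
    rcases max_choice e₁ e₂ with h | h <;> rw [h] <;> assumption
  obtain ⟨α, hα, h6, h7, h8, -⟩ := h.bk false _ hm ν hν l hl
  have h9 : e₁ ≤ α := (le_max_left _ _).trans h6.le
  have h10 : e₂ ≤ α := (le_max_right _ _).trans h6.le
  refine ⟨gr (raw G) α, ?_, ?_⟩
  · exact ZFSet.mem_sUnion.2 ⟨_, h.mem_FN.2 ⟨l, hl, rfl⟩,
      (h.mem_XN hl).2 ⟨α, hα, h7, h8.le, rfl⟩⟩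
  · have h11 := h.gen.mtch hα h7 hν hμ (Sys.Nme.mono h9 h1) (Sys.isPart_mono h9 h1 h2)
      (Sys.Nme.mono h10 h4) ⟨H, hH1, hH2, hH3, fun e he hc => by rw [h8]; exact hH4 e he hc⟩
    rwa [h3, h5] at h11

end Ok

end Pool.Agent.Helper60.MA
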