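import Pool.Agent.Helper60.MA.RQ
import Pool.Agent.Helper42.MA.XN
import Pool.Agent.Helper36.MA.TB
import Pool.Agent.Helper40.MA.PT

/-!
# The closure properties of the model
-/

set_option linter.unusedSectionVars false
set_option linter.unusedVariables false

namespace Pool.Agent.Helper60.MA

open Pool.Agent.Helper96.Fc Cardinal Ordinal
open Pool.Agent.Helper89.FV (nat om Tab)

section

variable {P : Type} [PartialOrder P] [OrderTop P]

/-- closure under a chosen operation -/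
theorem req_choice (Φ : List (Obj P) → Obj P → Prop) : ∃ r : Req P, ∀ (X : Set (Obj P))
    (G : Set P), r.Sat X G → ∀ l, (∀ a ∈ l, a ∈ X) → (∃ y, Φ l y) → ∃ y ∈ X, Φ l y := by
  classical
  refine ⟨opReq (fun l y => ∃ h : ∃ y, Φ l y, y = h.choose) ?_, ?_⟩
  · rintro l y z ⟨h, rfl⟩ ⟨h', rfl⟩
    rfl
  · intro X G hs l hl h
    exact ⟨h.choose, opReq_sat hs hl ⟨h, rfl⟩, h.choose_spec⟩

end

variable (S : Sys Om La)

theorem cN_inj {S : Sys Om La} {e e' : Om} (h : cN S e = cN S e') : e = e' :=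
  ToType.mk.symm.injective (Subtype.ext (ordN_inj' h))

theorem lN_inj {S : Sys Om La} {e e' : La} (h : lN S e = lN S e') : e = e' :=
  ToType.mk.symm.injective (Subtype.ext (ordN_inj' h))

/-- the name of the generic real at the coordinate `e` -/
noncomputable def grN (e : Om) : Nm (Pos S) :=
  setN (Pos S) fun k => {p | ∃ t, (p.1 e).word[k]? = some (true, t)}

/-- the name of the set of the ends of the blocks at the coordinate `e` -/
noncomputable def gkN (e : Om) : Nm (Pos S) :=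
  setN (Pos S) fun k => {p | ∃ a b, (p.1 e).stem = a ++ b ∧ a.flatten.length = k}

/-- the name of the set of the generic reals with label at most `l` -/
noncomputable def XN (l : La) : Nm (Pos S) :=
  Nm.mk {α : Om // S.cat α = false ∧ S.lab α ≤ l} (fun α => grN S α.1) (fun _ => ⊤)

/-- the name of the family of these sets -/
noncomputable def FN : Nm (Pos S) := Nm.mk La (fun l => XN S l) (fun _ => ⊤)

/-- the name of an enumeration of the family -/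
noncomputable def fN : Nm (Pos S) := Nm.mk La (fun l => pairN (lN S l) (XN S l)) (fun _ => ⊤)

theorem req_xn : ∃ r : Req (Pos S), ∀ X G, r.Sat X G → ∀ α ∈ EX S X, S.cat α = false →
    ∃ ν ∈ EX S X, (∀ e, α < e → S.Nme e ν) ∧ ∀ k n, ∃ t, ((S.dec ν k n).1 α).word[k]? =
      some ((S.dec ν k n).2, t) := by
  obtain ⟨r, hr⟩ := req_choice (P := Pos S) (fun l y => ∃ α ν, l = [Sum.inl (cN S α)] ∧
    y = Sum.inl (cN S ν) ∧ (∀ e, α < e → S.Nme e ν) ∧ ∀ k n, ∃ t,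
      ((S.dec ν k n).1 α).word[k]? = some ((S.dec ν k n).2, t))
  refine ⟨r, fun X G hs α hα hc => ?_⟩
  obtain ⟨ν, h1, h2⟩ := Sys.exists_xname (S := S) hc
  obtain ⟨y, hy, α', ν', h3, rfl, h4, h5⟩ := hr X G hs [Sum.inl (cN S α)]
    (fun a ha => by rw [List.mem_singleton] at ha; rw [ha]; exact hα)
    ⟨Sum.inl (cN S ν), α, ν, rfl, rfl, h1, h2⟩
  simp only [List.cons.injEq, Sum.inl.injEq, and_true] at h3
  obtain rfl := cN_inj h3
  exact ⟨ν', hy, h4, h5⟩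

theorem req_pt : ∃ r : Req (Pos S), ∀ X G, r.Sat X G → ∀ e ∈ EX S X, ∀ J ∈ EX S X, S.Nme e J →
    ∃ J' ∈ EX S X, S.Nme e J' ∧ S.IsPart (S.CondB e) J' ∧ ∀ G : Set (Cd Om),
      (∀ p ∈ G, S.Cond p) → (∀ p ∈ G, ∀ q, S.Cond q → S.Le p q → q ∈ G) →
      (∀ p ∈ G, ∀ q ∈ G, ∃ r ∈ G, S.Le r p ∧ S.Le r q) →
      (∀ k, ∃ n, (S.dec J k n).1 ∈ G) → (∀ k, ∃ n, (S.dec J' k n).1 ∈ G) →
      Inf (rl S G J) → rl S G J' = rl S G J := by
  obtain ⟨r, hr⟩ := req_choice (P := Pos S) (fun l y => ∃ e J J',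
    l = [Sum.inl (cN S e), Sum.inl (cN S J)] ∧ y = Sum.inl (cN S J') ∧
    S.Nme e J' ∧ S.IsPart (S.CondB e) J' ∧ ∀ G : Set (Cd Om),
      (∀ p ∈ G, S.Cond p) → (∀ p ∈ G, ∀ q, S.Cond q → S.Le p q → q ∈ G) →
      (∀ p ∈ G, ∀ q ∈ G, ∃ r ∈ G, S.Le r p ∧ S.Le r q) →
      (∀ k, ∃ n, (S.dec J k n).1 ∈ G) → (∀ k, ∃ n, (S.dec J' k n).1 ∈ G) →
      Inf (rl S G J) → rl S G J' = rl S G J)
  refine ⟨r, fun X G hs e he J hJ hn => ?_⟩
  obtain ⟨J', h1, h2, h3⟩ := Sys.exists_part (S := S) hn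
  obtain ⟨y, hy, e', J₁, J₂, h4, rfl, h5⟩ := hr X G hs [Sum.inl (cN S e), Sum.inl (cN S J)] (by
    intro a ha
    simp only [List.mem_cons, List.not_mem_nil, or_false] at ha
    rcases ha with rfl | rfl
    · exact he
    · exact hJ) ⟨Sum.inl (cN S J'), e, J, J', rfl, rfl, h1, h2, h3⟩
  simp only [List.cons.injEq, Sum.inl.injEq, and_true] at h4
  obtain ⟨h6, h7⟩ := h4
  obtain rfl := cN_inj h6
  obtain rfl := cN_inj h7
  exact ⟨J₂, hy, h5⟩

theorem req_bk (hb : ∀ (e : Om) (c : Bool) (l : La) (ν : Om),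
    ∃ e' > e, S.cat e' = c ∧ S.lab e' = l ∧ S.nam e' = ν) (c : Bool) :
    ∃ r : Req (Pos S), ∀ X G, r.Sat X G → ∀ e ∈ EX S X, ∀ J ∈ EX S X, ∀ l : La,
      (Sum.inl (lN S l) : Obj (Pos S)) ∈ X →
      ∃ e' ∈ EX S X, e < e' ∧ S.cat e' = c ∧ S.lab e' = l ∧ S.nam e' = J := by
  obtain ⟨r, hr⟩ := req_choice (P := Pos S) (fun l y => ∃ e J b e',
    l = [Sum.inl (cN S e), Sum.inl (cN S J), Sum.inl (lN S b)] ∧ y = Sum.inl (cN S e') ∧
    e < e' ∧ S.cat e' = c ∧ S.lab e' = b ∧ S.nam e' = J)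
  refine ⟨r, fun X G hs e he J hJ l hl => ?_⟩
  obtain ⟨e', h1, h2, h3, h4⟩ := hb e c l J
  obtain ⟨y, hy, e₁, J₁, b₁, e₂, h4, rfl, h5⟩ := hr X G hs
    [Sum.inl (cN S e), Sum.inl (cN S J), Sum.inl (lN S l)] (by
    intro a ha
    simp only [List.mem_cons, List.not_mem_nil, or_false] at ha
    rcases ha with rfl | rfl | rfl
    · exact he
    · exact hJ
    · exact hl) ⟨Sum.inl (cN S e'), e, J, l, e', rfl, rfl, h1, h2, h3, h4⟩
  simp only [List.cons.injEq, Sum.inl.injEq, and_true] at h4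
  obtain ⟨h6, h7, h8⟩ := h4
  obtain rfl := cN_inj h6
  obtain rfl := cN_inj h7
  obtain rfl := lN_inj h8
  exact ⟨e₂, hy, h5⟩

theorem req_lb : ∃ r : Req (Pos S), ∀ X G, r.Sat X G → ∀ J ∈ EX S X, ∀ h ∈ EX S X, ∃ l : La,
    (Sum.inl (lN S l) : Obj (Pos S)) ∈ X ∧ ∃ H : Hull Om, S.Closed H ∧ J ∈ H.na ∧ h ∈ H.na ∧
      ∀ e ∈ H.co, S.cat e = true → S.lab e < l := by
  obtain ⟨r, hr⟩ := req_choice (P := Pos S) (fun l y => ∃ J h b,
    l = [Sum.inl (cN S J), Sum.inl (cN S h)] ∧ y = Sum.inl (lN S b) ∧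
    ∃ H : Hull Om, S.Closed H ∧ J ∈ H.na ∧ h ∈ H.na ∧
      ∀ e ∈ H.co, S.cat e = true → S.lab e < b)
  refine ⟨r, fun X G hs J hJ h hh => ?_⟩
  obtain ⟨H, h1, -, h2, h3⟩ := Sys.exists_hull S Set.countable_empty
    (N := {J, h}) ((Set.countable_singleton h).insert J)
  have : Countable H.co := h3.to_subtype
  obtain ⟨b, hb⟩ := bddLa (fun e : H.co => S.lab e.1)
  obtain ⟨y, hy, J₁, h₁, b₁, h4, rfl, h5⟩ := hr X G hs [Sum.inl (cN S J), Sum.inl (cN S h)] (by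
    intro a ha
    simp only [List.mem_cons, List.not_mem_nil, or_false] at ha
    rcases ha with rfl | rfl
    · exact hJ
    · exact hh) ⟨Sum.inl (lN S b), J, h, b, rfl, rfl, H, h1, h2 (Or.inl rfl), h2 (Or.inr rfl),
        fun e he _ => hb ⟨e, he⟩⟩
  simp only [List.cons.injEq, Sum.inl.injEq, and_true] at h4
  obtain ⟨h6, h7⟩ := h4
  obtain rfl := cN_inj h6
  obtain rfl := cN_inj h7
  exact ⟨b₁, hy, h5⟩

/-- names from coordinates -/
theorem req_nm (f : Om → Nm (Pos S)) : ∃ r : Req (Pos S), ∀ X G, r.Sat X G → ∀ e ∈ EX S X,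
    (Sum.inl (f e) : Obj (Pos S)) ∈ X := by
  obtain ⟨r, hr⟩ := req_choice (P := Pos S) (fun l y => ∃ e, l = [Sum.inl (cN S e)] ∧
    y = Sum.inl (f e))
  refine ⟨r, fun X G hs e he => ?_⟩
  obtain ⟨y, hy, e', h1, rfl⟩ := hr X G hs [Sum.inl (cN S e)]
    (fun a ha => by rw [List.mem_singleton] at ha; rw [ha]; exact he)
    ⟨_, e, rfl, rfl⟩
  simp only [List.cons.injEq, Sum.inl.injEq, and_true] at h1
  obtain rfl := cN_inj h1
  exact hy

theorem req_lnm (f : La → Nm (Pos S)) : ∃ r : Req (Pos S), ∀ X G, r.Sat X G → ∀ l : La,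
    (Sum.inl (lN S l) : Obj (Pos S)) ∈ X → (Sum.inl (f l) : Obj (Pos S)) ∈ X := by
  obtain ⟨r, hr⟩ := req_choice (P := Pos S) (fun l y => ∃ e, l = [Sum.inl (lN S e)] ∧
    y = Sum.inl (f e))
  refine ⟨r, fun X G hs e he => ?_⟩
  obtain ⟨y, hy, e', h1, rfl⟩ := hr X G hs [Sum.inl (lN S e)] (by simpa using he)
    ⟨_, e, rfl, rfl⟩
  simp only [List.cons.injEq, Sum.inl.injEq, and_true] at h1
  obtain rfl := lN_inj h1
  exact hy

theorem req_const (x : Nm (Pos S)) : ∃ r : Req (Pos S), ∀ X G, r.Sat X G →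
    (Sum.inl x : Obj (Pos S)) ∈ X := by
  obtain ⟨r, hr⟩ := req_choice (P := Pos S) (fun l y => y = Sum.inl x)
  refine ⟨r, fun X G hs => ?_⟩
  obtain ⟨y, hy, rfl⟩ := hr X G hs [] (by simp) ⟨_, rfl⟩
  exact hy

/-- from a member of `XN l` back to a coordinate -/
theorem req_back : ∃ r : Req (Pos S), ∀ X G, r.Sat X G → ∀ l : La,
    (Sum.inl (lN S l) : Obj (Pos S)) ∈ X → ∀ α, S.cat α = false → S.lab α ≤ l →
      (Sum.inl (grN S α) : Obj (Pos S)) ∈ X →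
      ∃ β ∈ EX S X, S.cat β = false ∧ S.lab β ≤ l ∧ grN S β = grN S α := by
  obtain ⟨r, hr⟩ := req_choice (P := Pos S) (fun l y => ∃ b x β,
    l = [Sum.inl (lN S b), Sum.inl x] ∧ y = Sum.inl (cN S β) ∧ S.cat β = false ∧ S.lab β ≤ b ∧
    grN S β = x)
  refine ⟨r, fun X G hs l hl α hc hα hx => ?_⟩
  obtain ⟨y, hy, b, x, β, h1, rfl, h2⟩ := hr X G hs [Sum.inl (lN S l), Sum.inl (grN S α)] (by
    intro a ha
    simp only [List.mem_cons, List.not_mem_nil, or_false] at ha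
    rcases ha with rfl | rfl
    · exact hl
    · exact hx) ⟨_, l, grN S α, α, rfl, rfl, hc, hα, rfl⟩
  simp only [List.cons.injEq, Sum.inl.injEq, and_true] at h1
  obtain ⟨h3, rfl⟩ := h1
  obtain rfl := lN_inj h3
  exact ⟨β, hy, h2⟩

/-- from a member of `FN` back to a label -/
theorem req_backF : ∃ r : Req (Pos S), ∀ X G, r.Sat X G → ∀ l : La,
    (Sum.inl (XN S l) : Obj (Pos S)) ∈ X → ∃ b : La, (Sum.inl (lN S b) : Obj (Pos S)) ∈ X ∧
      XN S b = XN S l := by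
  obtain ⟨r, hr⟩ := req_choice (P := Pos S) (fun l y => ∃ x b,
    l = [Sum.inl x] ∧ y = Sum.inl (lN S b) ∧ XN S b = x)
  refine ⟨r, fun X G hs l hl => ?_⟩
  obtain ⟨y, hy, x, b, h1, rfl, h2⟩ := hr X G hs [Sum.inl (XN S l)] (by simpa using hl)
    ⟨_, XN S l, l, rfl, rfl, rfl⟩
  simp only [List.cons.injEq, Sum.inl.injEq, and_true] at h1
  obtain rfl := h1
  exact ⟨b, hy, h2⟩

end Pool.Agent.Helper60.MA
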