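import Pool.Agent.Helper60.MA.Defs

/-!
# The order of the conditions: basic properties
-/

set_option linter.unusedSectionVars false
set_option linter.unusedVariables false

namespace Pool.Agent.Helper60.MA

variable {Ω L : Type} [LinearOrder Ω] [LinearOrder L]

@[simp] theorem zero_stem : (0 : Ent Ω).stem = [] := rfl
@[simp] theorem zero_side : (0 : Ent Ω).side = ∅ := rfl
@[simp] theorem zero_word : (0 : Ent Ω).word = [] := rfl

namespace Sys

variable {S : Sys Ω L}

theorem Says.mono {D D' : Cd Ω → Prop} (h : ∀ c, D c → D' c) {ν : Ω} {k : ℕ} {i : Bool}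
    (hs : S.Says D ν k i) : S.Says D' ν k i := by
  obtain ⟨n, h1, h2⟩ := hs
  exact ⟨n, h1, h _ h2⟩

theorem OkC.mono {D D' : Cd Ω → Prop} (h : ∀ c, D c → D' c) {e : Ω} {A A' : Finset Ω}
    (hA : A' ⊆ A) {l : ℕ} {β : List Sym} (hs : S.OkC D e A l β) : S.OkC D' e A' l β := by
  obtain ⟨⟨u, v, h1, h2, h3, h4, h5, h6⟩, h7⟩ := hs
  refine ⟨⟨u, v, h1, h2, h3, h4.mono h, h5.mono h, h6⟩, fun x hx => ?_⟩
  obtain ⟨u, v, h1, h2, h3, h4, h5, h6⟩ := h7 x (hA hx)
  refine ⟨u, v, h1, h2, h3, h4.mono h, h5.mono h, fun k hk1 hk2 => ?_⟩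
  obtain ⟨i, t, h8, h9⟩ := h6 k hk1 hk2
  exact ⟨i, t, h8, h9.mono h⟩

theorem OkM.mono {q q' : Cd Ω} {e : Ω} (h : ∀ γ < e, (q γ).word <+: (q' γ).word)
    {A A' : Finset Ω} (hA : A' ⊆ A) {l : ℕ} {β : List Sym} (hs : OkM q e A l β) :
    OkM q' e A' l β := by
  intro k t hk γ hγ hγe
  obtain ⟨i, hi⟩ := hs k t hk γ (hA hγ) hγe
  obtain ⟨w, hw⟩ := h γ hγe
  refine ⟨i, ?_⟩
  rw [← hw, List.getElem?_append_left (List.getElem?_eq_some_iff.1 hi).1, hi]

theorem Loc.refl (e : Ω) (q : Cd Ω) (D : Cd Ω → Prop) (x : Ent Ω) : S.Loc e q D x x :=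
  ⟨Finset.Subset.refl _, [], by simp, fun a β c h => by simp at h⟩

/-- same stem, larger side condition -/
theorem Loc.of_side {e : Ω} {q : Cd Ω} {D : Cd Ω → Prop} {x y : Ent Ω} (h1 : x.stem = y.stem)
    (h2 : y.side ⊆ x.side) : S.Loc e q D x y :=
  ⟨h2, [], by simp [h1], fun a β c h => by simp at h⟩

theorem Loc.word {e : Ω} {q : Cd Ω} {D : Cd Ω → Prop} {x y : Ent Ω} (h : S.Loc e q D x y) :
    y.word <+: x.word := by
  obtain ⟨-, bs, h1, -⟩ := h
  rw [Ent.word, Ent.word, h1, List.flatten_append]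
  exact List.prefix_append _ _

theorem Loc.mono {e : Ω} {q q' : Cd Ω} {D D' : Cd Ω → Prop} (hD : ∀ c, D c → D' c)
    (hw : ∀ γ < e, (q γ).word <+: (q' γ).word) {x y : Ent Ω} (h : S.Loc e q D x y) :
    S.Loc e q' D' x y := by
  obtain ⟨h1, bs, h2, h3⟩ := h
  refine ⟨h1, bs, h2, fun a β c hbs => ?_⟩
  have h4 := h3 a β c hbs
  by_cases he : S.cat e
  · simp only [he, if_true] at h4 ⊢
    exact h4.mono hD (Finset.Subset.refl _)
  · simp only [he] at h4 ⊢
    exact OkM.mono hw (Finset.Subset.refl _) h4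

theorem Loc.trans {e : Ω} {r q : Cd Ω} {D' D : Cd Ω → Prop} (hD : ∀ c, D c → D' c)
    (hw : ∀ γ < e, (q γ).word <+: (r γ).word) {z x y : Ent Ω} (h : S.Loc e r D' z x)
    (h' : S.Loc e q D x y) : S.Loc e r D' z y := by
  obtain ⟨h1, bs, h2, h3⟩ := h
  obtain ⟨h1', bs', h2', h3'⟩ := h'
  refine ⟨h1'.trans h1, bs' ++ bs, by rw [h2, h2', List.append_assoc], fun a β c hbs => ?_⟩
  rcases List.append_eq_append_iff.1 hbs with ⟨d, hd1, hd2⟩ | ⟨d, hd1, hd2⟩
  · -- the block lies in `bs`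
    subst hd1
    have h4 := h3 d β c hd2
    rw [h2'] at h4
    rw [← List.append_assoc]
    by_cases he : S.cat e
    · simp only [he, if_true] at h4 ⊢
      exact h4.mono (fun _ h => h) h1'
    · simp only [he] at h4 ⊢
      exact OkM.mono (fun γ _ => List.prefix_refl _) h1' h4
  · rcases d with _ | ⟨b, d⟩
    · -- first block of `bs`
      rw [List.nil_append] at hd2
      rw [List.append_nil] at hd1
      subst hd1
      have h4 := h3 [] β c (by rw [List.nil_append]; exact hd2.symm)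
      rw [h2', List.append_nil] at h4
      by_cases he : S.cat e
      · simp only [he, if_true] at h4 ⊢
        exact h4.mono (fun _ h => h) h1'
      · simp only [he] at h4 ⊢
        exact OkM.mono (fun γ _ => List.prefix_refl _) h1' h4
    · -- the block lies in `bs'`
      rw [List.cons_append, List.cons.injEq] at hd2
      obtain ⟨rfl, hd2⟩ := hd2
      have h4 := h3' a β d hd1
      by_cases he : S.cat e
      · simp only [he, if_true] at h4 ⊢
        exact h4.mono hD (Finset.Subset.refl _)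
      · simp only [he] at h4 ⊢
        exact OkM.mono hw (Finset.Subset.refl _) h4

variable [WellFoundedLT Ω]

theorem LeB_iff {e : Ω} {q p : Cd Ω} : S.LeB e q p ↔
    ∀ e' < e, S.Loc e' q (S.LeB e' q) (q e') (p e') := by
  rw [LeB]

theorem LeB.word {e : Ω} {q p : Cd Ω} (h : S.LeB e q p) : ∀ γ < e, (p γ).word <+: (q γ).word := by
  rw [LeB_iff] at h
  exact fun γ hγ => (h γ hγ).word

theorem LeB.below {e e' : Ω} (he : e' ≤ e) {q p : Cd Ω} (h : S.LeB e q p) : S.LeB e' q p := by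
  rw [LeB_iff] at h ⊢
  exact fun d hd => h d (hd.trans_le he)

theorem LeB.refl (e : Ω) (p : Cd Ω) : S.LeB e p p := by
  rw [LeB_iff]
  exact fun e' _ => Loc.refl _ _ _ _

theorem LeB.trans {e : Ω} : ∀ {r q p : Cd Ω}, S.LeB e r q → S.LeB e q p → S.LeB e r p := by
  induction e using WellFoundedLT.induction with
  | _ e ih =>
    intro r q p h h'
    rw [LeB_iff] at *
    intro e' he'
    have h1 : S.LeB e' r q := LeB_iff.2 fun d hd => h d (hd.trans he')
    exact Loc.trans (fun c hc => ih e' he' h1 hc) h1.word (h e' he') (h' e' he')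

theorem Le.leB {q p : Cd Ω} (h : S.Le q p) (e : Ω) : S.LeB e q p :=
  LeB_iff.2 fun e' _ => h e'

theorem Le.refl (p : Cd Ω) : S.Le p p := fun _ => Loc.refl _ _ _ _

theorem Le.trans {r q p : Cd Ω} (h : S.Le r q) (h' : S.Le q p) : S.Le r p := fun e =>
  Loc.trans (fun _ hc => (h.leB e).trans hc) (h.leB e).word (h e) (h' e)

theorem Le.word {q p : Cd Ω} (h : S.Le q p) (γ : Ω) : (p γ).word <+: (q γ).word := (h γ).word

theorem Le.antisymm {q p : Cd Ω} (h : S.Le q p) (h' : S.Le p q) : q = p := by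
  ext1 e
  obtain ⟨h1, bs, h2, -⟩ := h e
  obtain ⟨h3, bs', h4, -⟩ := h' e
  refine Ent.ext ?_ (Finset.Subset.antisymm h3 h1)
  rw [h2, List.append_assoc] at h4
  have h5 := List.self_eq_append_right.1 h4
  rw [List.append_eq_nil_iff] at h5
  rw [h2, h5.1, List.append_nil]

/-- the order may be checked step by step, for several conditions simultaneously -/
theorem le_of_step {g : Cd Ω} {T : Set (Cd Ω)}
    (h : ∀ e, (∀ t ∈ T, S.LeB e g t) → ∀ t ∈ T, S.Loc e g (S.LeB e g) (g e) (t e)) :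
    ∀ t ∈ T, S.Le g t := by
  have key : ∀ e, ∀ t ∈ T, S.LeB e g t := by
    intro e
    induction e using WellFoundedLT.induction with
    | _ e ih =>
      intro t ht
      rw [LeB_iff]
      exact fun e' he' => h e' (ih e' he') t ht
  exact fun t ht e => h e (key e) t ht

theorem leB_of_step {e : Ω} {g : Cd Ω} {T : Set (Cd Ω)}
    (h : ∀ e' < e, (∀ t ∈ T, S.LeB e' g t) → ∀ t ∈ T, S.Loc e' g (S.LeB e' g) (g e') (t e')) :
    ∀ t ∈ T, S.LeB e g t := by
  have key : ∀ e' ≤ e, ∀ t ∈ T, S.LeB e' g t := by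
    intro e'
    induction e' using WellFoundedLT.induction with
    | _ e' ih =>
      intro he' t ht
      rw [LeB_iff]
      exact fun d hd => h d (hd.trans_le he') (ih d hd (hd.le.trans he')) t ht
  exact key e le_rfl

theorem LeB_congr {e : Ω} : ∀ {q q' p p' : Cd Ω}, (∀ d < e, q d = q' d) → (∀ d < e, p d = p' d) →
    S.LeB e q p → S.LeB e q' p' := by
  induction e using WellFoundedLT.induction with
  | _ e ih =>
    intro q q' p p' hq hp h
    rw [LeB_iff] at h ⊢
    intro e' he'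
    have h1 := h e' he'
    rw [hq e' he', hp e' he'] at h1
    refine h1.mono (fun c hc => ih e' he' (fun d hd => hq d (hd.trans he')) (fun _ _ => rfl) hc) ?_
    intro γ hγ
    rw [hq γ (hγ.trans he')]

theorem LeB_congr_iff {e : Ω} {q q' p p' : Cd Ω} (hq : ∀ d < e, q d = q' d)
    (hp : ∀ d < e, p d = p' d) : S.LeB e q p ↔ S.LeB e q' p' :=
  ⟨LeB_congr hq hp, LeB_congr (fun d hd => (hq d hd).symm) (fun d hd => (hp d hd).symm)⟩

theorem Loc_congr {e : Ω} {q q' : Cd Ω} (hq : ∀ d < e, q d = q' d) {x y : Ent Ω}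
    (h : S.Loc e q (S.LeB e q) x y) : S.Loc e q' (S.LeB e q') x y :=
  h.mono (fun _ hc => LeB_congr hq (fun _ _ => rfl) hc) fun γ hγ => by rw [hq γ hγ]

/-! ### Conditions -/

theorem CondB_iff {e : Ω} {p : Cd Ω} : S.CondB e p ↔
    (∀ e', p e' ≠ 0 → e' < e) ∧ S.Le p 0 ∧ ∀ e', e' < e → p e' ≠ 0 →
    (S.cat e' = true → S.Val e' ∧ ∀ ν ∈ (p e').side, S.Nme e' ν) ∧
    (S.cat e' = false → ∀ γ ∈ (p e').side, γ < e' ∧ S.lab e' ≤ S.lab γ ∧ S.Val γ) := by
  rw [CondB]
  simp only [Val, Nme, exists_prop]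

theorem CondB_iff' {e : Ω} {p : Cd Ω} : S.CondB e p ↔ S.Cond p ∧ ∀ e', p e' ≠ 0 → e' < e := by
  rw [CondB_iff, Cond]
  constructor
  · rintro ⟨h1, h2, h3⟩
    exact ⟨⟨h2, fun e' he' => h3 e' (h1 e' he') he'⟩, h1⟩
  · rintro ⟨⟨h2, h3⟩, h1⟩
    exact ⟨h1, h2, fun e' _ he' => h3 e' he'⟩

theorem CondB.cond {e : Ω} {p : Cd Ω} (h : S.CondB e p) : S.Cond p := (CondB_iff'.1 h).1

theorem CondB.lt {e : Ω} {p : Cd Ω} (h : S.CondB e p) {e' : Ω} (he : p e' ≠ 0) : e' < e :=
  (CondB_iff'.1 h).2 e' he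

theorem CondB.zero_of_le {e : Ω} {p : Cd Ω} (h : S.CondB e p) {e' : Ω} (he : e ≤ e') :
    p e' = 0 := by
  by_contra hcon
  exact absurd (h.lt hcon) (not_lt.2 he)

theorem CondB.mono {e e' : Ω} (he : e ≤ e') {p : Cd Ω} (h : S.CondB e p) : S.CondB e' p :=
  CondB_iff'.2 ⟨h.cond, fun _ hd => (h.lt hd).trans_le he⟩

theorem Cond.le_zero {p : Cd Ω} (h : S.Cond p) : S.Le p 0 := h.1

theorem cond_zero : S.Cond (0 : Cd Ω) := ⟨Le.refl _, fun e he => (he rfl).elim⟩

theorem condB_zero (e : Ω) : S.CondB e (0 : Cd Ω) :=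
  CondB_iff'.2 ⟨cond_zero, fun e he => (he rfl).elim⟩

/-- if `t` lives below `e` then `q ≤ t` may be checked below `e` -/
theorem le_of_leB {e : Ω} {q t : Cd Ω} (ht : ∀ e', e ≤ e' → t e' = 0) (hq : S.Le q 0)
    (h : S.LeB e q t) : S.Le q t := by
  intro e'
  by_cases he : e' < e
  · rw [LeB_iff] at h
    exact h e' he
  · rw [ht e' (not_lt.1 he)]
    exact hq e'

theorem CondB.le_of_leB {e : Ω} {q t : Cd Ω} (ht : S.CondB e t) (hq : S.Cond q)
    (h : S.LeB e q t) : S.Le q t :=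
  Sys.le_of_leB (fun _ he => ht.zero_of_le he) hq.1 h

/-- the part of a condition below `e` -/
def cut (e : Ω) (p : Cd Ω) : Cd Ω := p.filter (· < e)

theorem cut_lt {e d : Ω} (hd : d < e) (p : Cd Ω) : cut e p d = p d := by
  rw [cut, Finsupp.filter_apply, if_pos hd]

theorem cut_ge {e d : Ω} (hd : e ≤ d) (p : Cd Ω) : cut e p d = 0 := by
  rw [cut, Finsupp.filter_apply, if_neg (not_lt.2 hd)]

theorem LeB_cut_left {e : Ω} {q p : Cd Ω} : S.LeB e (cut e q) p ↔ S.LeB e q p :=
  LeB_congr_iff (fun d hd => cut_lt hd q) (fun _ _ => rfl)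

theorem LeB_cut_right {e : Ω} {q p : Cd Ω} : S.LeB e q (cut e p) ↔ S.LeB e q p :=
  LeB_congr_iff (fun _ _ => rfl) (fun d hd => cut_lt hd p)

theorem le_cut (e : Ω) {p : Cd Ω} (h : S.Le p 0) : S.Le p (cut e p) :=
  le_of_leB (fun _ he => cut_ge he _) h (LeB_cut_right.2 (LeB.refl _ _))

theorem cut_le_cut {e : Ω} {q p : Cd Ω} (h : S.LeB e q p) : S.Le (cut e q) (cut e p) := by
  intro d
  by_cases hd : d < e
  · rw [cut_lt hd, cut_lt hd]
    rw [LeB_iff] at h
    exact Loc_congr (fun d' hd' => (cut_lt (hd'.trans hd) q).symm) (h d hd)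
  · rw [cut_ge (not_lt.1 hd), cut_ge (not_lt.1 hd)]
    exact Loc.refl _ _ _ _

theorem cut_zero (e : Ω) : cut e (0 : Cd Ω) = 0 := Finsupp.filter_zero _

theorem Cond.cut {p : Cd Ω} (h : S.Cond p) (e : Ω) : S.CondB e (cut e p) := by
  refine CondB_iff'.2 ⟨⟨?_, ?_⟩, ?_⟩
  · have h1 := cut_le_cut (h.1.leB e)
    rwa [cut_zero] at h1
  · intro d hd
    by_cases hde : d < e
    · rw [cut_lt hde] at hd ⊢
      exact h.2 d hd
    · exact (hd (cut_ge (not_lt.1 hde) p)).elim
  · intro d hd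
    by_contra hde
    exact hd (cut_ge (not_lt.1 hde) p)

theorem cut_eq_self {e : Ω} {p : Cd Ω} (h : ∀ d, e ≤ d → p d = 0) : cut e p = p := by
  ext1 d
  by_cases hd : d < e
  · exact cut_lt hd p
  · rw [cut_ge (not_lt.1 hd), h d (not_lt.1 hd)]

/-- the condition that is `q` below `e`, has the entry `x` at `e` and is `p` above `e` -/
noncomputable def mix (e : Ω) (q : Cd Ω) (x : Ent Ω) (p : Cd Ω) : Cd Ω :=
  Finsupp.ofSupportFinite (fun d => if d < e then q d else if d = e then x else p d)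
    (((q.support ∪ p.support ∪ {e}).finite_toSet).subset (by
      intro d hd
      simp only [Function.mem_support, ne_eq] at hd
      simp only [Finset.coe_union, Finset.coe_singleton, Set.mem_union, Finset.mem_coe,
        Finsupp.mem_support_iff, Set.mem_singleton_iff]
      by_contra hcon
      push Not at hcon
      apply hd
      split_ifs with h1 h2
      · exact hcon.1.1
      · exact (hcon.2 h2).elim
      · exact hcon.1.2))

theorem mix_lt {e d : Ω} (hd : d < e) (q : Cd Ω) (x : Ent Ω) (p : Cd Ω) :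
    mix e q x p d = q d := by
  show (if d < e then q d else if d = e then x else p d) = q d
  rw [if_pos hd]

theorem mix_self (e : Ω) (q : Cd Ω) (x : Ent Ω) (p : Cd Ω) : mix e q x p e = x := by
  show (if e < e then q e else if e = e then x else p e) = x
  rw [if_neg (lt_irrefl _), if_pos rfl]

theorem mix_gt {e d : Ω} (hd : e < d) (q : Cd Ω) (x : Ent Ω) (p : Cd Ω) :
    mix e q x p d = p d := by
  show (if d < e then q d else if d = e then x else p d) = p d
  rw [if_neg (not_lt.2 hd.le), if_neg hd.ne']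

/-- the compatibility of the entries at a coordinate with the definition of a condition -/
def EntOk (S : Sys Ω L) (e : Ω) (x : Ent Ω) : Prop :=
  (S.cat e = true → S.Val e ∧ ∀ ν ∈ x.side, S.Nme e ν) ∧
    (S.cat e = false → ∀ γ ∈ x.side, γ < e ∧ S.lab e ≤ S.lab γ ∧ S.Val γ)

theorem Cond.entOk {p : Cd Ω} (h : S.Cond p) {e : Ω} (he : p e ≠ 0) : S.EntOk e (p e) := h.2 e he

theorem cond_iff {p : Cd Ω} : S.Cond p ↔ S.Le p 0 ∧ ∀ e, p e ≠ 0 → S.EntOk e (p e) := Iff.rfl

/-- **extension at one coordinate**: `q ≤ p` below `e`, and the entry `x` extends `p e` -/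
theorem mix_le {e : Ω} {q p : Cd Ω} {x : Ent Ω} (hq : S.CondB e q) (hp : S.Cond p)
    (hqp : S.LeB e q p) (hx : S.EntOk e x) (hl : S.Loc e q (S.LeB e q) x (p e)) :
    S.Cond (mix e q x p) ∧ S.Le (mix e q x p) p ∧ S.Le (mix e q x p) q := by
  have hcg : ∀ d < e, q d = mix e q x p d := fun d hd => (mix_lt hd q x p).symm
  have h1 : ∀ t ∈ ({p, 0} : Set (Cd Ω)), S.Le (mix e q x p) t := by
    refine le_of_step fun d hd t ht => ?_
    rcases lt_trichotomy d e with hde | rfl | hde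
    · rw [mix_lt hde]
      have hcg' : ∀ d' < d, q d' = mix e q x p d' := fun d' h => hcg d' (h.trans hde)
      rcases ht with rfl | rfl
      · exact Loc_congr hcg' (LeB_iff.1 hqp d hde)
      · exact Loc_congr hcg' (hq.cond.1 d)
    · rw [mix_self]
      rcases ht with rfl | rfl
      · exact Loc_congr hcg hl
      · have h2 := Loc_congr hcg hl
        refine Loc.trans (q := p) (D := S.LeB d p) (fun c hc => (hd p (Or.inl rfl)).trans hc)
          (hd p (Or.inl rfl)).word h2 (hp.1 d)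
    · rw [mix_gt hde]
      rcases ht with rfl | rfl
      · exact Loc.refl _ _ _ _
      · exact (hp.1 d).mono (fun c hc => (hd p (Or.inl rfl)).trans hc) (hd p (Or.inl rfl)).word
  have h2 : S.Cond (mix e q x p) := by
    refine ⟨h1 0 (Or.inr rfl), fun d hd => ?_⟩
    rcases lt_trichotomy d e with hde | rfl | hde
    · rw [mix_lt hde] at hd ⊢
      exact hq.cond.2 d hd
    · rw [mix_self]
      exact hx
    · rw [mix_gt hde] at hd ⊢
      exact hp.2 d hd
  refine ⟨h2, h1 p (Or.inl rfl), hq.le_of_leB h2 ?_⟩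
  exact LeB_congr hcg (fun _ _ => rfl) (LeB.refl e q)

/-- extension below `e` -/
theorem mix_le' {e : Ω} {q p : Cd Ω} (hq : S.CondB e q) (hp : S.Cond p) (hqp : S.LeB e q p) :
    S.Cond (mix e q (p e) p) ∧ S.Le (mix e q (p e) p) p ∧ S.Le (mix e q (p e) p) q := by
  by_cases h : p e = 0
  · have hcg : ∀ d < e, q d = mix e q (p e) p d := fun d hd => (mix_lt hd q _ p).symm
    have h1 : ∀ t ∈ ({p, 0} : Set (Cd Ω)), S.Le (mix e q (p e) p) t := by
      refine le_of_step fun d hd t ht => ?_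
      rcases lt_trichotomy d e with hde | rfl | hde
      · rw [mix_lt hde]
        have hcg' : ∀ d' < d, q d' = mix e q (p e) p d' := fun d' h => hcg d' (h.trans hde)
        rcases ht with rfl | rfl
        · exact Loc_congr hcg' (LeB_iff.1 hqp d hde)
        · exact Loc_congr hcg' (hq.cond.1 d)
      · rw [mix_self]
        rcases ht with rfl | rfl
        · exact Loc.refl _ _ _ _
        · rw [h]; exact Loc.refl _ _ _ _
      · rw [mix_gt hde]
        rcases ht with rfl | rfl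
        · exact Loc.refl _ _ _ _
        · exact (hp.1 d).mono (fun c hc => (hd p (Or.inl rfl)).trans hc) (hd p (Or.inl rfl)).word
    have h2 : S.Cond (mix e q (p e) p) := by
      refine ⟨h1 0 (Or.inr rfl), fun d hd => ?_⟩
      rcases lt_trichotomy d e with hde | rfl | hde
      · rw [mix_lt hde] at hd ⊢
        exact hq.cond.2 d hd
      · rw [mix_self] at hd
        exact (hd h).elim
      · rw [mix_gt hde] at hd ⊢
        exact hp.2 d hd
    refine ⟨h2, h1 p (Or.inl rfl), hq.le_of_leB h2 ?_⟩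
    exact LeB_congr hcg (fun _ _ => rfl) (LeB.refl e q)
  · exact mix_le hq hp hqp (hp.2 e h) (Loc.refl _ _ _ _)

end Sys

/-- the forcing notion -/
def Pos (S : Sys Ω L) [WellFoundedLT Ω] : Type := {p : Cd Ω // S.Cond p}

instance (S : Sys Ω L) [WellFoundedLT Ω] : PartialOrder (Pos S) where
  le q p := S.Le q.1 p.1
  le_refl p := Sys.Le.refl p.1
  le_trans _ _ _ h h' := h.trans h'
  le_antisymm _ _ h h' := Subtype.ext (h.antisymm h')

instance (S : Sys Ω L) [WellFoundedLT Ω] : OrderTop (Pos S) where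
  top := ⟨0, Sys.cond_zero⟩
  le_top p := p.2.1

end Pool.Agent.Helper60.MA
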