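import Pool.Agent.Helper60.MA.GDefs

/-!
# Combining requirements
-/

set_option linter.unusedSectionVars false
set_option linter.unusedVariables false

namespace Pool.Agent.Helper60.MA

open Pool.Agent.Helper96.Fc

variable {P : Type} [PartialOrder P] [OrderTop P]

theorem exists_sat {ι : Type} [Countable ι] (r : ι → Req P) (p₀ : P) :
    ∃ (X : Set (Obj P)) (G : Set P), X.Countable ∧ p₀ ∈ G ∧ Basic X G ∧ Clos X ∧
      ∀ i, (r i).Sat X G := by
  have : ∀ i, Countable (r i).K := fun i => (r i).cK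
  obtain ⟨X, G, h1, h2, h3, h4, h5, h6⟩ := exists_good (K := Σ i, (r i).K)
    (fun k => (r k.1).R k.2) (fun k => (r k.1).O k.2) (fun k => (r k.1).hO k.2) p₀
  exact ⟨X, G, h1, h2, h3, h4, fun i => ⟨fun k => h5 ⟨i, k⟩, fun k l y hl hy =>
    h6 ⟨i, k⟩ l y hl hy⟩⟩

/-- the requirement that `X` is closed under a partial operation -/
def opReq (O : List (Obj P) → Obj P → Prop) (hO : ∀ l y z, O l y → O l z → y = z) : Req P where
  K := Unit
  cK := inferInstance
  R := fun _ _ _ => True
  O := fun _ => O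
  hO := fun _ => hO

theorem opReq_sat {O : List (Obj P) → Obj P → Prop} {hO : ∀ l y z, O l y → O l z → y = z}
    {X : Set (Obj P)} {G : Set P} (h : (opReq O hO).Sat X G) {l : List (Obj P)} {y : Obj P}
    (hl : ∀ a ∈ l, a ∈ X) (hy : O l y) : y ∈ X :=
  h.clo () l y hl hy

end Pool.Agent.Helper60.MA
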