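import Pool.Agent.Helper96.Fc.Defs

/-!
# Meager-additive sets in a transitive model

The notions of the problem, for a transitive model `N` of `ZFC` (`IsZFC N`). A point
`x : ℕ → Bool` of the Cantor space is represented by the set `st x` of the natural numbers `n` with
`x n = true`. The notions `Onto` (images) and `NextCard` (successor cardinal) are those of the file
`Defs`; the other notions of that file are not used.
-/

namespace Pool.Agent.Helper60.MeagerAdditive

open Pool.Agent.Helper96.Fc

/-- The natural number `n` as a set. -/
noncomputable def nat (n : ℕ) : ZFSet.{0} := (n : Ordinal.{0}).toZFSet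

/-- The set `ω`. -/
noncomputable def om : ZFSet.{0} := Ordinal.toZFSet Ordinal.omega0

/-- The point `x` of the Cantor space, as a set: the set of the natural numbers `n` with
`x n = true`. -/
noncomputable def st (x : ℕ → Bool) : ZFSet.{0} :=
  ZFSet.sep (fun z => ∃ n, x n = true ∧ z = nat n) om

/-- `A ∈ N` is a set of points of the Cantor space (they all belong to `N`, as `N` is
transitive). -/
def Pts (N : Set ZFSet.{0}) (A : ZFSet.{0}) : Prop := A ∈ N ∧ ∀ z ∈ A, ∃ x, z = st x

/-- The finite sequence `s` is an initial segment of `x`. -/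
def Init (s : List Bool) (x : ℕ → Bool) : Prop := ∀ i b, s[i]? = some b → x i = b

/-- The set `C` of points is nowhere dense: every finite sequence `s` has an extension `s ++ t`
that is not an initial segment of a point of `C`, that is, every basic open set contains a basic
open set that is disjoint from `C`. -/
def NWD (C : ZFSet.{0}) : Prop :=
  ∀ s : List Bool, ∃ t : List Bool, ∀ x, st x ∈ C → ¬ Init (s ++ t) x

/-- In `N`, the set `A` is meager: there is in `N` a sequence `F` of nowhere dense sets (a set of
pairs `(n, C)`, with at most one `C` for every `n`) whose union contains `A`. -/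
def Meager (N : Set ZFSet.{0}) (A : ZFSet.{0}) : Prop :=
  ∃ F ∈ N, (∀ n C D, ZFSet.pair (nat n) C ∈ F → ZFSet.pair (nat n) D ∈ F → C = D) ∧
    (∀ n C, ZFSet.pair (nat n) C ∈ F → NWD C) ∧
    ∀ z ∈ A, ∃ n C, ZFSet.pair (nat n) C ∈ F ∧ z ∈ C

/-- `B` is the set `X + A` of the sums (modulo 2) of the points of `X` and the points of `A`. -/
def IsSum (X A B : ZFSet.{0}) : Prop :=
  ∀ z, z ∈ B ↔ ∃ x y, st x ∈ X ∧ st y ∈ A ∧ z = st fun n => xor (x n) (y n)

/-- In `N`, the set `X` of points is meager-additive: `X + A` is meager for every meager set `A`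
of points. -/
def MeagerAdd (N : Set ZFSet.{0}) (X : ZFSet.{0}) : Prop :=
  Pts N X ∧ ∀ A B, Pts N A → Meager N A → B ∈ N → IsSum X A B → Meager N B

end Pool.Agent.Helper60.MeagerAdditive
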